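import Mathlib

/-!
Near squares in planar lattice sets with divergent reciprocal sum.

The box energy of a box of side `4 m H` (the number of quadruples `i, i', j, j'` in the box with all four
points `(i,j), (i',j), (i,j'), (i',j')` in the set) is at most `14 m ^ 2 = (7/8) (4 m) ^ 2` times the sum of
the box energies of its `(4 m) ^ 2` cells of side `H`, when the set has no axis-parallel rectangle whose
sides differ by less than `2 H` and exceed `(m - 1) H`: for two columns in cell columns at distance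
`d` between `m` and `3 m`, the cell rows `p` and `p + d` cannot both be hit. Iterating this over the scales
and comparing with the lower bound `|A| ^ 4 / N ^ 4` bounds the set.
-/

namespace Pool.Agent.Results.MP_138721_co.NearSquares

open Finset

/-- the box energy of `f` on the box with lower left corner `(x, y)` and side `h` -/
private def tt (f : ℕ → ℕ → ℕ) (h x y : ℕ) : ℕ :=
  ∑ j ∈ range h, ∑ j' ∈ range h, (∑ i ∈ range h, f (x + i) (y + j) * f (x + i) (y + j')) ^ 2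

/-- the mass of `f` on the box -/
private def aa (f : ℕ → ℕ → ℕ) (h x y : ℕ) : ℕ :=
  ∑ j ∈ range h, ∑ i ∈ range h, f (x + i) (y + j)

private theorem split (b H : ℕ) (g : ℕ → ℕ) :
    ∑ j ∈ range (b * H), g j = ∑ q ∈ range b, ∑ s ∈ range H, g (q * H + s) := by
  induction b with
  | zero => simp
  | succ b ih => rw [Nat.succ_mul, sum_range_add, ih, sum_range_succ]

private theorem swap4 (h : ℕ) (F G : ℕ → ℕ → ℕ) :
    ∑ j ∈ range h, ∑ j' ∈ range h, (∑ i ∈ range h, F i j * G i j') ^ 2 =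
      ∑ i ∈ range h, ∑ i' ∈ range h, (∑ j ∈ range h, F i j * F i' j) * (∑ j ∈ range h, G i j * G i' j) := by
  have h1 : ∀ j j', (∑ i ∈ range h, F i j * G i j') ^ 2 =
      ∑ p ∈ range h ×ˢ range h, (F p.1 j * F p.2 j) * (G p.1 j' * G p.2 j') := by
    intro j j'
    rw [sq, sum_mul_sum, sum_product]
    refine sum_congr rfl fun i _ => sum_congr rfl fun i' _ => ?_
    ring
  have h2 : ∀ i i', (∑ j ∈ range h, F i j * F i' j) * (∑ j ∈ range h, G i j * G i' j) =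
      ∑ p ∈ range h ×ˢ range h, (F i p.1 * F i' p.1) * (G i p.2 * G i' p.2) := by
    intro i i'
    rw [sum_mul_sum, sum_product]
  simp_rw [h1, h2]
  rw [← sum_product' (f := fun j j' => ∑ p ∈ range h ×ˢ range h, (F p.1 j * F p.2 j) * (G p.1 j' * G p.2 j')),
    ← sum_product' (f := fun i i' => ∑ p ∈ range h ×ˢ range h, (F i p.1 * F i' p.1) * (G i p.2 * G i' p.2)),
    sum_comm]

private theorem two_mul_le (a b : ℕ) : 2 * (a * b) ≤ a ^ 2 + b ^ 2 := by
  have h : (2 * (a * b) : ℤ) ≤ (a : ℤ) ^ 2 + (b : ℤ) ^ 2 := by nlinarith [sq_nonneg ((a : ℤ) - b)]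
  exact_mod_cast h

private theorem pair (f : ℕ → ℕ → ℕ) (H x y y' : ℕ) :
    2 * ∑ s ∈ range H, ∑ s' ∈ range H, (∑ r ∈ range H, f (x + r) (y + s) * f (x + r) (y' + s')) ^ 2 ≤
      tt f H x y + tt f H x y' := by
  rw [tt, tt, swap4 H (fun r s => f (x + r) (y + s)) (fun r s => f (x + r) (y' + s)),
    swap4 H (fun r s => f (x + r) (y + s)) (fun r s => f (x + r) (y + s)),
    swap4 H (fun r s => f (x + r) (y' + s)) (fun r s => f (x + r) (y' + s)), mul_sum, ← sum_add_distrib]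
  refine sum_le_sum fun i _ => ?_
  rw [mul_sum, ← sum_add_distrib]
  refine sum_le_sum fun i' _ => ?_
  refine (two_mul_le _ _).trans (le_of_eq ?_)
  ring

/-- the good pairs of columns -/
private def Gd (m q q' : ℕ) : Prop := (q + m ≤ q' ∧ q' ≤ q + 3 * m) ∨ (q' + m ≤ q ∧ q ≤ q' + 3 * m)

private instance (m q q' : ℕ) : Decidable (Gd m q q') := by
  unfold Gd
  infer_instance

private def ww (m q q' : ℕ) : ℕ := if Gd m q q' then 3 * m else 4 * m

private theorem ww_symm (m q q' : ℕ) : ww m q q' = ww m q' q := by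
  unfold ww
  congr 1
  unfold Gd
  exact propext or_comm

private theorem ww_sum (m q : ℕ) (hq : q < 4 * m) : ∑ q' ∈ range (4 * m), ww m q q' ≤ 14 * m ^ 2 := by
  have hcard : 2 * m ≤ ((range (4 * m)).filter fun q' => Gd m q q').card := by
    have h1 : ((range (2 * m)).image fun s => if q + m + s < 4 * m then q + m + s else q + m + s - 4 * m) ⊆
        (range (4 * m)).filter fun q' => Gd m q q' := by
      intro t ht
      rw [mem_image] at ht
      obtain ⟨s, hs, rfl⟩ := ht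
      rw [mem_range] at hs
      rw [mem_filter, mem_range]
      unfold Gd
      split_ifs <;> omega
    have h2 : ((range (2 * m)).image fun s => if q + m + s < 4 * m then q + m + s else q + m + s - 4 * m).card =
        2 * m := by
      rw [card_image_of_injOn, card_range]
      intro s hs s' hs' h
      simp only [coe_range, Set.mem_Iio] at hs hs'
      dsimp only at h
      split_ifs at h <;> omega
    rw [← h2]
    exact card_le_card h1
  have hsum : ∑ q' ∈ range (4 * m), ww m q q' + m * ((range (4 * m)).filter fun q' => Gd m q q').card = 16 * m ^ 2 := by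
    rw [card_filter, mul_sum, ← sum_add_distrib]
    have : ∀ q' ∈ range (4 * m), ww m q q' + m * (if Gd m q q' then 1 else 0) = 4 * m := by
      intro q' _
      unfold ww
      split_ifs <;> ring
    rw [sum_congr rfl this, sum_const, card_range, smul_eq_mul]
    ring
  nlinarith [Nat.mul_le_mul_left m hcard]

private theorem cs_supp (m d : ℕ) (hd : m ≤ d) (hd' : d ≤ 3 * m) (c : ℕ → ℕ)
    (h : ∀ p, p + d < 4 * m → c p * c (p + d) = 0) :
    (∑ p ∈ range (4 * m), c p) ^ 2 ≤ 3 * m * ∑ p ∈ range (4 * m), c p ^ 2 := by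
  have h1 : ∑ p ∈ range (4 * m), c p = ∑ p ∈ (range (4 * m)).filter (fun p => c p ≠ 0), c p := by
    rw [sum_filter_ne_zero]
  have h2 : ∑ p ∈ (range (4 * m)).filter (fun p => c p ≠ 0), c p ^ 2 ≤ ∑ p ∈ range (4 * m), c p ^ 2 :=
    sum_le_sum_of_subset (filter_subset _ _)
  have h3 : ((range (4 * m)).filter (fun p => c p ≠ 0)).card ≤ 3 * m := by
    have h4 : ((range (4 * m)).filter (fun p => c p ≠ 0)).card = ∑ p ∈ range (4 * m), (if c p ≠ 0 then 1 else 0) :=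
      card_filter _ _
    obtain ⟨e, rfl⟩ := Nat.exists_eq_add_of_le hd
    have h5 : 4 * m = m + e + m + (2 * m - e) := by omega
    rw [h4, h5, sum_range_add, sum_range_add, sum_range_add]
    have h6 : ∑ x ∈ range e, (if c (m + x) ≠ 0 then 1 else 0) ≤ e := by
      calc ∑ x ∈ range e, (if c (m + x) ≠ 0 then 1 else 0) ≤ ∑ x ∈ range e, 1 :=
            sum_le_sum fun x _ => by split_ifs <;> simp
        _ = e := by simp
    have h7 : ∑ x ∈ range (2 * m - e), (if c (m + e + m + x) ≠ 0 then 1 else 0) ≤ 2 * m - e := by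
      calc ∑ x ∈ range (2 * m - e), (if c (m + e + m + x) ≠ 0 then 1 else 0) ≤ ∑ x ∈ range (2 * m - e), 1 :=
            sum_le_sum fun x _ => by split_ifs <;> simp
        _ = 2 * m - e := by simp
    have h8 : ∑ x ∈ range m, (if c x ≠ 0 then 1 else 0) + ∑ x ∈ range m, (if c (m + e + x) ≠ 0 then 1 else 0) ≤ m := by
      rw [← sum_add_distrib]
      calc ∑ x ∈ range m, ((if c x ≠ 0 then 1 else 0) + (if c (m + e + x) ≠ 0 then 1 else 0)) ≤ ∑ x ∈ range m, 1 := by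
            refine sum_le_sum fun x hx => ?_
            rw [mem_range] at hx
            have := h x (by omega)
            rw [add_comm x, mul_eq_zero] at this
            rcases this with h9 | h9 <;> simp [h9] <;> split_ifs <;> simp
        _ = m := by simp
    omega
  rw [h1]
  calc (∑ p ∈ (range (4 * m)).filter (fun p => c p ≠ 0), c p) ^ 2
      ≤ ((range (4 * m)).filter (fun p => c p ≠ 0)).card * ∑ p ∈ (range (4 * m)).filter (fun p => c p ≠ 0), c p ^ 2 :=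
        sq_sum_le_card_mul_sum_sq
    _ ≤ 3 * m * ∑ p ∈ range (4 * m), c p ^ 2 := Nat.mul_le_mul h3 h2

private theorem cs_all (n : ℕ) (c : ℕ → ℕ) :
    (∑ p ∈ range n, c p) ^ 2 ≤ n * ∑ p ∈ range n, c p ^ 2 := by
  have := sq_sum_le_card_mul_sum_sq (s := range n) (f := c)
  rwa [card_range] at this


/-- `f` has no near square at scale `H` -/
private def NoSq (f : ℕ → ℕ → ℕ) (m H : ℕ) : Prop :=
  ∀ i i' j j' : ℕ, i < i' → j < j' → i + m * H < i' + H → j + m * H < j' + H →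
    i' + j < i + j' + 2 * H → i + j' < i' + j + 2 * H →
    f i j ≠ 0 → f i' j ≠ 0 → f i j' ≠ 0 → f i' j' ≠ 0 → False

private theorem exists_of_sum {n : ℕ} {g : ℕ → ℕ} (h : ∑ r ∈ range n, g r ≠ 0) : ∃ r, r < n ∧ g r ≠ 0 := by
  obtain ⟨r, hr, h1⟩ := exists_ne_zero_of_sum_ne_zero h
  exact ⟨r, mem_range.1 hr, h1⟩

private theorem claim1 (f : ℕ → ℕ → ℕ) (m H x y : ℕ) (hm : 0 < m) (hno : NoSq f m H) (q s q' s' : ℕ)
    (hs : s < H) (hs' : s' < H) :
    (∑ p ∈ range (4 * m), ∑ r ∈ range H, f (x + (p * H + r)) (y + (q * H + s)) *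
      f (x + (p * H + r)) (y + (q' * H + s'))) ^ 2 ≤
    ww m q q' * ∑ p ∈ range (4 * m), (∑ r ∈ range H, f (x + (p * H + r)) (y + (q * H + s)) *
      f (x + (p * H + r)) (y + (q' * H + s'))) ^ 2 := by
  unfold ww
  split_ifs with hg
  · obtain ⟨d, hd, hd1, hd2⟩ : ∃ d, (q' = q + d ∨ q = q' + d) ∧ m ≤ d ∧ d ≤ 3 * m := by
      rcases hg with hg | hg
      · exact ⟨q' - q, by omega, by omega, by omega⟩
      · exact ⟨q - q', by omega, by omega, by omega⟩
    refine cs_supp m d hd1 hd2 _ fun p hp => ?_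
    by_contra hne
    rw [mul_eq_zero, not_or] at hne
    obtain ⟨r, hr, h1⟩ := exists_of_sum hne.1
    obtain ⟨r', hr', h2⟩ := exists_of_sum hne.2
    rw [mul_ne_zero_iff] at h1 h2
    have hmd : m * H ≤ d * H := Nat.mul_le_mul_right H hd1
    have hmH : H ≤ m * H := Nat.le_mul_of_pos_left H hm
    have e1 : (p + d) * H = p * H + d * H := by ring
    rcases hd with rfl | rfl
    · have e2 : (q + d) * H = q * H + d * H := by ring
      rw [e1, e2] at h2
      rw [e2] at h1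
      exact hno (x + (p * H + r)) (x + (p * H + d * H + r')) (y + (q * H + s)) (y + (q * H + d * H + s'))
        (by omega) (by omega) (by omega) (by omega) (by omega) (by omega) h1.1 h2.1 h1.2 h2.2
    · have e2 : (q' + d) * H = q' * H + d * H := by ring
      rw [e1, e2] at h2
      rw [e2] at h1
      exact hno (x + (p * H + r)) (x + (p * H + d * H + r')) (y + (q' * H + s')) (y + (q' * H + d * H + s))
        (by omega) (by omega) (by omega) (by omega) (by omega) (by omega) h1.2 h2.2 h1.1 h2.1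
  · exact cs_all _ _

private theorem comm3 (n k l : ℕ) (g : ℕ → ℕ → ℕ → ℕ) :
    ∑ s ∈ range n, ∑ s' ∈ range k, ∑ p ∈ range l, g s s' p = ∑ p ∈ range l, ∑ s ∈ range n, ∑ s' ∈ range k, g s s' p := by
  calc _ = ∑ s ∈ range n, ∑ p ∈ range l, ∑ s' ∈ range k, g s s' p := sum_congr rfl fun s _ => sum_comm
    _ = _ := sum_comm

private theorem step (f : ℕ → ℕ → ℕ) (m H x y : ℕ) (hm : 0 < m) (hno : NoSq f m H) :
    tt f (4 * m * H) x y ≤ 14 * m ^ 2 *
      ∑ q ∈ range (4 * m), ∑ p ∈ range (4 * m), tt f H (x + p * H) (y + q * H) := by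
  have e1 : tt f (4 * m * H) x y = ∑ q ∈ range (4 * m), ∑ s ∈ range H, ∑ q' ∈ range (4 * m), ∑ s' ∈ range H,
      (∑ p ∈ range (4 * m), ∑ r ∈ range H, f (x + (p * H + r)) (y + (q * H + s)) *
      f (x + (p * H + r)) (y + (q' * H + s'))) ^ 2 := by
    unfold tt
    simp only [split]
  have e2 : tt f (4 * m * H) x y ≤ ∑ q ∈ range (4 * m), ∑ s ∈ range H, ∑ q' ∈ range (4 * m), ∑ s' ∈ range H,
      ww m q q' * ∑ p ∈ range (4 * m), (∑ r ∈ range H, f (x + (p * H + r)) (y + (q * H + s)) *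
      f (x + (p * H + r)) (y + (q' * H + s'))) ^ 2 := by
    rw [e1]
    refine sum_le_sum fun q _ => sum_le_sum fun s hs => sum_le_sum fun q' _ => sum_le_sum fun s' hs' => ?_
    exact claim1 f m H x y hm hno q s q' s' (mem_range.1 hs) (mem_range.1 hs')
  have e3 : ∑ q ∈ range (4 * m), ∑ s ∈ range H, ∑ q' ∈ range (4 * m), ∑ s' ∈ range H,
      ww m q q' * ∑ p ∈ range (4 * m), (∑ r ∈ range H, f (x + (p * H + r)) (y + (q * H + s)) *
      f (x + (p * H + r)) (y + (q' * H + s'))) ^ 2 =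
      ∑ q ∈ range (4 * m), ∑ q' ∈ range (4 * m), ww m q q' * ∑ p ∈ range (4 * m), ∑ s ∈ range H, ∑ s' ∈ range H,
        (∑ r ∈ range H, f (x + (p * H + r)) (y + (q * H + s)) *
      f (x + (p * H + r)) (y + (q' * H + s'))) ^ 2 := by
    refine sum_congr rfl fun q _ => ?_
    rw [sum_comm]
    refine sum_congr rfl fun q' _ => ?_
    simp only [← mul_sum]
    congr 1
    exact comm3 _ _ _ _
  have e4 : 2 * ∑ q ∈ range (4 * m), ∑ q' ∈ range (4 * m), ww m q q' * ∑ p ∈ range (4 * m), ∑ s ∈ range H,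
      ∑ s' ∈ range H, (∑ r ∈ range H, f (x + (p * H + r)) (y + (q * H + s)) *
      f (x + (p * H + r)) (y + (q' * H + s'))) ^ 2 ≤
      ∑ q ∈ range (4 * m), ∑ q' ∈ range (4 * m), ww m q q' * ∑ p ∈ range (4 * m),
        (tt f H (x + p * H) (y + q * H) + tt f H (x + p * H) (y + q' * H)) := by
    rw [mul_sum]
    refine sum_le_sum fun q _ => ?_
    rw [mul_sum]
    refine sum_le_sum fun q' _ => ?_
    rw [← mul_assoc, mul_comm 2, mul_assoc]
    refine Nat.mul_le_mul_left _ ?_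
    rw [mul_sum]
    refine sum_le_sum fun p _ => ?_
    have := pair f H (x + p * H) (y + q * H) (y + q' * H)
    simpa only [add_assoc] using this
  have e5 : ∑ q ∈ range (4 * m), ∑ q' ∈ range (4 * m), ww m q q' * ∑ p ∈ range (4 * m),
        (tt f H (x + p * H) (y + q * H) + tt f H (x + p * H) (y + q' * H)) =
      2 * ∑ q ∈ range (4 * m), (∑ q' ∈ range (4 * m), ww m q q') * ∑ p ∈ range (4 * m), tt f H (x + p * H) (y + q * H) := by
    have h1 : ∑ q ∈ range (4 * m), ∑ q' ∈ range (4 * m), ww m q q' * ∑ p ∈ range (4 * m), tt f H (x + p * H) (y + q * H) =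
        ∑ q ∈ range (4 * m), (∑ q' ∈ range (4 * m), ww m q q') * ∑ p ∈ range (4 * m), tt f H (x + p * H) (y + q * H) :=
      sum_congr rfl fun q _ => by rw [sum_mul]
    have h2 : ∑ q ∈ range (4 * m), ∑ q' ∈ range (4 * m), ww m q q' * ∑ p ∈ range (4 * m), tt f H (x + p * H) (y + q' * H) =
        ∑ q ∈ range (4 * m), (∑ q' ∈ range (4 * m), ww m q q') * ∑ p ∈ range (4 * m), tt f H (x + p * H) (y + q * H) := by
      rw [sum_comm]
      refine sum_congr rfl fun q _ => ?_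
      rw [sum_mul]
      exact sum_congr rfl fun q' _ => by rw [ww_symm]
    simp only [sum_add_distrib, mul_add]
    rw [h1, h2]
    ring
  have e6 : ∑ q ∈ range (4 * m), (∑ q' ∈ range (4 * m), ww m q q') * ∑ p ∈ range (4 * m), tt f H (x + p * H) (y + q * H) ≤
      14 * m ^ 2 * ∑ q ∈ range (4 * m), ∑ p ∈ range (4 * m), tt f H (x + p * H) (y + q * H) := by
    rw [mul_sum]
    exact sum_le_sum fun q hq => Nat.mul_le_mul_right _ (ww_sum m q (mem_range.1 hq))
  rw [e3] at e2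
  omega

private theorem aa_split (f : ℕ → ℕ → ℕ) (b H x y : ℕ) :
    aa f (b * H) x y = ∑ q ∈ range b, ∑ p ∈ range b, aa f H (x + p * H) (y + q * H) := by
  unfold aa
  simp only [split, add_assoc]
  refine sum_congr rfl fun q _ => ?_
  rw [sum_comm]

private theorem base (f : ℕ → ℕ → ℕ) (hf : ∀ i j, f i j ≤ 1) (h x y : ℕ) : tt f h x y ≤ h ^ 2 * aa f h x y := by
  unfold tt aa
  rw [mul_sum]
  refine sum_le_sum fun j _ => ?_
  have h1 : ∀ j', (∑ i ∈ range h, f (x + i) (y + j) * f (x + i) (y + j')) ^ 2 ≤ h * ∑ i ∈ range h, f (x + i) (y + j) := by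
    intro j'
    rw [sq]
    refine Nat.mul_le_mul ?_ ?_
    · calc ∑ i ∈ range h, f (x + i) (y + j) * f (x + i) (y + j') ≤ ∑ i ∈ range h, 1 :=
            sum_le_sum fun i _ => by
              calc _ ≤ 1 * 1 := Nat.mul_le_mul (hf _ _) (hf _ _)
                _ = 1 := rfl
        _ = h := by simp
    · refine sum_le_sum fun i _ => ?_
      calc _ ≤ f (x + i) (y + j) * 1 := Nat.mul_le_mul_left _ (hf _ _)
        _ = _ := mul_one _
  calc ∑ j' ∈ range h, (∑ i ∈ range h, f (x + i) (y + j) * f (x + i) (y + j')) ^ 2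
      ≤ ∑ j' ∈ range h, h * ∑ i ∈ range h, f (x + i) (y + j) := sum_le_sum fun j' _ => h1 j'
    _ = h ^ 2 * ∑ i ∈ range h, f (x + i) (y + j) := by
        rw [sum_const, card_range, smul_eq_mul]
        ring

private theorem upper (f : ℕ → ℕ → ℕ) (hf : ∀ i j, f i j ≤ 1) (m h : ℕ) (hm : 0 < m) (n : ℕ)
    (hno : ∀ k < n, NoSq f m ((4 * m) ^ k * h)) (x y : ℕ) :
    tt f ((4 * m) ^ n * h) x y ≤ (14 * m ^ 2) ^ n * h ^ 2 * aa f ((4 * m) ^ n * h) x y := by
  induction n generalizing x y with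
  | zero => simpa using base f hf h x y
  | succ n ih =>
    have e : (4 * m) ^ (n + 1) * h = 4 * m * ((4 * m) ^ n * h) := by ring
    rw [e]
    refine (step f m _ x y hm (hno n (Nat.lt_succ_self n))).trans ?_
    rw [aa_split]
    have h1 : ∑ q ∈ range (4 * m), ∑ p ∈ range (4 * m), tt f ((4 * m) ^ n * h) (x + p * ((4 * m) ^ n * h)) (y + q * ((4 * m) ^ n * h)) ≤
        ∑ q ∈ range (4 * m), ∑ p ∈ range (4 * m), (14 * m ^ 2) ^ n * h ^ 2 *
          aa f ((4 * m) ^ n * h) (x + p * ((4 * m) ^ n * h)) (y + q * ((4 * m) ^ n * h)) :=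
      sum_le_sum fun q _ => sum_le_sum fun p _ => ih (fun k hk => hno k (hk.trans (Nat.lt_succ_self n))) _ _
    simp only [← mul_sum] at h1
    calc _ ≤ 14 * m ^ 2 * ((14 * m ^ 2) ^ n * h ^ 2 * _) := Nat.mul_le_mul_left _ h1
      _ = _ := by ring

private theorem lower (f : ℕ → ℕ → ℕ) (h x y : ℕ) : aa f h x y ^ 4 ≤ h ^ 4 * tt f h x y := by
  have h1 : aa f h x y ^ 2 ≤ h * ∑ i ∈ range h, ∑ i' ∈ range h, ∑ j ∈ range h, f (x + i) (y + j) * f (x + i') (y + j) := by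
    unfold aa
    refine (cs_all h _).trans (Nat.mul_le_mul_left _ (le_of_eq ?_))
    have h2 : ∀ j ∈ range h, (∑ i ∈ range h, f (x + i) (y + j)) ^ 2 =
        ∑ i ∈ range h, ∑ i' ∈ range h, f (x + i) (y + j) * f (x + i') (y + j) := fun j _ => by
      rw [sq, sum_mul_sum]
    rw [sum_congr rfl h2]
    exact (comm3 h h h fun i i' j => f (x + i) (y + j) * f (x + i') (y + j)).symm
  have h3 : (∑ i ∈ range h, ∑ i' ∈ range h, ∑ j ∈ range h, f (x + i) (y + j) * f (x + i') (y + j)) ^ 2 ≤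
      h ^ 2 * tt f h x y := by
    rw [tt, swap4 h (fun i j => f (x + i) (y + j)) (fun i j => f (x + i) (y + j))]
    refine (cs_all h _).trans ?_
    rw [sq h, mul_assoc]
    refine Nat.mul_le_mul_left _ ?_
    rw [mul_sum]
    refine sum_le_sum fun i _ => (cs_all h _).trans (le_of_eq ?_)
    simp only [sq]
  calc aa f h x y ^ 4 = (aa f h x y ^ 2) ^ 2 := by ring
    _ ≤ (h * ∑ i ∈ range h, ∑ i' ∈ range h, ∑ j ∈ range h, f (x + i) (y + j) * f (x + i') (y + j)) ^ 2 :=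
      Nat.pow_le_pow_left h1 2
    _ = h ^ 2 * (∑ i ∈ range h, ∑ i' ∈ range h, ∑ j ∈ range h, f (x + i) (y + j) * f (x + i') (y + j)) ^ 2 := by ring
    _ ≤ h ^ 2 * (h ^ 2 * tt f h x y) := Nat.mul_le_mul_left _ h3
    _ = h ^ 4 * tt f h x y := by ring

/-- finite form: a set without near squares is small -/
private theorem finite_form (f : ℕ → ℕ → ℕ) (hf : ∀ i j, f i j ≤ 1) (m h : ℕ) (hm : 0 < m) (n : ℕ)
    (hno : ∀ k < n, NoSq f m ((4 * m) ^ k * h)) (x y : ℕ) :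
    8 ^ n * aa f ((4 * m) ^ n * h) x y ^ 3 ≤ 7 ^ n * ((4 * m) ^ n * h) ^ 6 := by
  rcases Nat.eq_zero_or_pos (aa f ((4 * m) ^ n * h) x y) with h0 | h0
  · rw [h0]
    simp
  have h1 := lower f ((4 * m) ^ n * h) x y
  have h2 := upper f hf m h hm n hno x y
  have h3 : aa f ((4 * m) ^ n * h) x y ^ 3 ≤ ((4 * m) ^ n * h) ^ 4 * ((14 * m ^ 2) ^ n * h ^ 2) := by
    refine Nat.le_of_mul_le_mul_right ?_ h0
    calc aa f ((4 * m) ^ n * h) x y ^ 3 * aa f ((4 * m) ^ n * h) x y = aa f ((4 * m) ^ n * h) x y ^ 4 := by ring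
      _ ≤ _ := h1
      _ ≤ ((4 * m) ^ n * h) ^ 4 * ((14 * m ^ 2) ^ n * h ^ 2 * aa f ((4 * m) ^ n * h) x y) := Nat.mul_le_mul_left _ h2
      _ = _ := by ring
  have h4 : 8 ^ n * (14 * m ^ 2) ^ n = 7 ^ n * ((4 * m) ^ n) ^ 2 := by
    rw [← mul_pow, ← pow_mul, mul_comm n 2, pow_mul, ← mul_pow]
    congr 1
    ring
  calc 8 ^ n * aa f ((4 * m) ^ n * h) x y ^ 3 ≤ 8 ^ n * (((4 * m) ^ n * h) ^ 4 * ((14 * m ^ 2) ^ n * h ^ 2)) :=
        Nat.mul_le_mul_left _ h3
    _ = (8 ^ n * (14 * m ^ 2) ^ n) * (((4 * m) ^ n * h) ^ 4 * h ^ 2) := by ring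
    _ = 7 ^ n * ((4 * m) ^ n * h) ^ 6 := by
      rw [h4]
      ring

/-- the box `[-2^n, 2^n)²` -/
private noncomputable def BB (n : ℕ) : Finset (ℤ × ℤ) := Ico (-2 ^ n : ℤ) (2 ^ n) ×ˢ Ico (-2 ^ n : ℤ) (2 ^ n)

open Classical in
/-- number of points of `A` in the box -/
private noncomputable def KK (A : Set (ℤ × ℤ)) (n : ℕ) : ℕ := ((BB n).filter fun p => p ∈ A).card

private theorem mem_BB {n : ℕ} {p : ℤ × ℤ} : p ∈ BB n ↔ (-2 ^ n ≤ p.1 ∧ p.1 < 2 ^ n) ∧ (-2 ^ n ≤ p.2 ∧ p.2 < 2 ^ n) := by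
  unfold BB
  rw [mem_product, mem_Ico, mem_Ico]

private theorem BB_mono {n k : ℕ} (h : n ≤ k) : BB n ⊆ BB k := by
  intro p hp
  rw [mem_BB] at hp ⊢
  have h1 : (2 : ℤ) ^ n ≤ 2 ^ k := pow_le_pow_right₀ (by norm_num) h
  omega

private noncomputable def gg (A : Set (ℤ × ℤ)) : ℤ × ℤ → ℝ :=
  A.indicator fun p : ℤ × ℤ => (1 : ℝ) / ((p.1 : ℝ) ^ 2 + (p.2 : ℝ) ^ 2)

private theorem gg_nonneg (A : Set (ℤ × ℤ)) (p : ℤ × ℤ) : 0 ≤ gg A p := by
  unfold gg
  refine Set.indicator_nonneg (fun p _ => ?_) p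
  positivity

private theorem shell (A : Set (ℤ × ℤ)) (n : ℕ) :
    ∑ p ∈ BB (n + 1) \ BB n, gg A p ≤ KK A (n + 1) / 4 ^ n := by
  classical
  have h1 : ∀ p ∈ BB (n + 1) \ BB n, gg A p ≤ if p ∈ A then (1 : ℝ) / 4 ^ n else 0 := by
    intro p hp
    unfold gg
    rw [Set.indicator_apply]
    split_ifs with hA
    · rw [mem_sdiff, mem_BB, mem_BB] at hp
      have h2 : (4 : ℤ) ^ n ≤ p.1 ^ 2 + p.2 ^ 2 := by
        have h3 : (4 : ℤ) ^ n = (2 ^ n) ^ 2 := by
          rw [← pow_mul, mul_comm, pow_mul]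
          norm_num
        have h4 : (0 : ℤ) < 2 ^ n := by positivity
        obtain ⟨hp1, hp2⟩ := hp
        have h5 : p.1 < -2 ^ n ∨ 2 ^ n ≤ p.1 ∨ p.2 < -2 ^ n ∨ 2 ^ n ≤ p.2 := by omega
        rw [h3]
        rcases h5 with h | h | h | h <;> nlinarith [sq_nonneg p.1, sq_nonneg p.2]
      have h3 : ((4 : ℝ) ^ n) ≤ (p.1 : ℝ) ^ 2 + (p.2 : ℝ) ^ 2 := by exact_mod_cast h2
      exact one_div_le_one_div_of_le (by positivity) h3
    · exact le_rfl
  calc ∑ p ∈ BB (n + 1) \ BB n, gg A p ≤ ∑ p ∈ BB (n + 1) \ BB n, (if p ∈ A then (1 : ℝ) / 4 ^ n else 0) :=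
        sum_le_sum h1
    _ ≤ ∑ p ∈ BB (n + 1), (if p ∈ A then (1 : ℝ) / 4 ^ n else 0) := by
        refine sum_le_sum_of_subset_of_nonneg sdiff_subset fun p _ _ => ?_
        split_ifs
        · positivity
        · exact le_rfl
    _ = KK A (n + 1) / 4 ^ n := by
        rw [← sum_filter, sum_const, nsmul_eq_mul]
        unfold KK
        rw [mul_one_div]

private theorem summable_of_small (A : Set (ℤ × ℤ)) (n₀ : ℕ) (h : ∀ n, n₀ ≤ n → n ^ 2 * KK A n ≤ 4 ^ n) :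
    Summable (gg A) := by
  classical
  have hs : Summable fun n : ℕ => 4 * (1 / ((n + 1 : ℕ) : ℝ) ^ 2) := by
    refine Summable.mul_left 4 ?_
    have := (Real.summable_one_div_nat_pow (p := 2)).2 (by norm_num)
    exact (summable_nat_add_iff (f := fun n : ℕ => 1 / (n : ℝ) ^ 2) 1).2 this
  have h1 : ∀ M, ∑ p ∈ BB (n₀ + M), gg A p ≤ ∑ p ∈ BB n₀, gg A p + ∑ n ∈ range (n₀ + M), 4 * (1 / ((n + 1 : ℕ) : ℝ) ^ 2) := by
    intro M
    induction M with
    | zero =>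
      have : 0 ≤ ∑ n ∈ range (n₀ + 0), 4 * (1 / ((n + 1 : ℕ) : ℝ) ^ 2) := sum_nonneg fun n _ => by positivity
      simpa using this
    | succ M ih =>
      rw [← add_assoc, sum_range_succ]
      have h2 : ∑ p ∈ BB (n₀ + M + 1), gg A p = ∑ p ∈ BB (n₀ + M + 1) \ BB (n₀ + M), gg A p + ∑ p ∈ BB (n₀ + M), gg A p :=
        (sum_sdiff (BB_mono (Nat.le_succ _))).symm
      have h3 := shell A (n₀ + M)
      have h4 : (KK A (n₀ + M + 1) : ℝ) / 4 ^ (n₀ + M) ≤ 4 * (1 / ((n₀ + M + 1 : ℕ) : ℝ) ^ 2) := by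
        have h5 := h (n₀ + M + 1) (by omega)
        have h6 : ((n₀ + M + 1 : ℕ) : ℝ) ^ 2 * (KK A (n₀ + M + 1) : ℝ) ≤ 4 ^ (n₀ + M + 1) := by exact_mod_cast h5
        rw [mul_one_div, div_le_div_iff₀ (by positivity) (by positivity)]
        rw [pow_succ (4 : ℝ)] at h6
        linarith
      linarith
  refine summable_of_sum_le (c := ∑ p ∈ BB n₀, gg A p + ∑' n : ℕ, 4 * (1 / ((n + 1 : ℕ) : ℝ) ^ 2)) (gg_nonneg A) fun u => ?_
  obtain ⟨M, hM⟩ : ∃ M, u ⊆ BB (n₀ + M) := by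
    refine ⟨∑ p ∈ u, (p.1.natAbs + p.2.natAbs), fun p hp => ?_⟩
    have h2 : p.1.natAbs + p.2.natAbs ≤ ∑ p ∈ u, (p.1.natAbs + p.2.natAbs) :=
      single_le_sum (f := fun p : ℤ × ℤ => p.1.natAbs + p.2.natAbs) (fun _ _ => Nat.zero_le _) hp
    have h3 : n₀ + ∑ p ∈ u, (p.1.natAbs + p.2.natAbs) < 2 ^ (n₀ + ∑ p ∈ u, (p.1.natAbs + p.2.natAbs)) :=
      Nat.lt_two_pow_self
    have h4 : ((n₀ + ∑ p ∈ u, (p.1.natAbs + p.2.natAbs) : ℕ) : ℤ) < 2 ^ (n₀ + ∑ p ∈ u, (p.1.natAbs + p.2.natAbs)) := by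
      exact_mod_cast h3
    rw [mem_BB]
    omega
  calc ∑ p ∈ u, gg A p ≤ ∑ p ∈ BB (n₀ + M), gg A p :=
        sum_le_sum_of_subset_of_nonneg hM fun p _ _ => gg_nonneg A p
    _ ≤ ∑ p ∈ BB n₀, gg A p + ∑ n ∈ range (n₀ + M), 4 * (1 / ((n + 1 : ℕ) : ℝ) ^ 2) := h1 M
    _ ≤ _ := by
      have := hs.sum_le_tsum (range (n₀ + M)) (fun n _ => by positivity)
      linarith

open Classical in
/-- the indicator of `A` on the box, in coordinates starting at 0 -/
private noncomputable def ff (A : Set (ℤ × ℤ)) (n : ℕ) (i j : ℕ) : ℕ :=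
  if i < 2 ^ (n + 1) ∧ j < 2 ^ (n + 1) ∧ ((i : ℤ) - 2 ^ n, (j : ℤ) - 2 ^ n) ∈ A then 1 else 0

private theorem ff_le (A : Set (ℤ × ℤ)) (n i j : ℕ) : ff A n i j ≤ 1 := by
  unfold ff
  split_ifs <;> simp

private theorem ff_ne {A : Set (ℤ × ℤ)} {n i j : ℕ} (h : ff A n i j ≠ 0) :
    i < 2 ^ (n + 1) ∧ j < 2 ^ (n + 1) ∧ ((i : ℤ) - 2 ^ n, (j : ℤ) - 2 ^ n) ∈ A := by
  unfold ff at h
  by_contra hne
  rw [if_neg hne] at h
  exact h rfl

private theorem sum_shift (n : ℕ) (g : ℤ → ℕ) :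
    ∑ x ∈ Ico (-2 ^ n : ℤ) (2 ^ n), g x = ∑ i ∈ range (2 ^ (n + 1)), g ((i : ℤ) - 2 ^ n) := by
  refine (sum_bij' (fun (i : ℕ) _ => (i : ℤ) - 2 ^ n) (fun (x : ℤ) _ => (x + 2 ^ n).toNat) ?_ ?_ ?_ ?_ ?_).symm
  · intro i hi
    rw [mem_range] at hi
    have h2 : ((i : ℕ) : ℤ) < 2 ^ (n + 1) := by exact_mod_cast hi
    rw [mem_Ico]
    rw [pow_succ] at h2
    omega
  · intro x hx
    rw [mem_Ico] at hx
    rw [mem_range]
    have h2 : (2 : ℤ) ^ (n + 1) = 2 ^ n * 2 := pow_succ _ _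
    have h3 : ((x + 2 ^ n).toNat : ℤ) < ((2 ^ (n + 1) : ℕ) : ℤ) := by
      push_cast
      omega
    exact_mod_cast h3
  · intro i _
    simp
  · intro x hx
    rw [mem_Ico] at hx
    rw [Int.toNat_of_nonneg (by omega)]
    ring
  · intro i _
    rfl

private theorem KK_eq (A : Set (ℤ × ℤ)) (n : ℕ) : KK A n = aa (ff A n) (2 ^ (n + 1)) 0 0 := by
  classical
  have e1 : KK A n = ∑ x ∈ Ico (-2 ^ n : ℤ) (2 ^ n), ∑ y ∈ Ico (-2 ^ n : ℤ) (2 ^ n), if (x, y) ∈ A then 1 else 0 := by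
    unfold KK BB
    rw [card_filter, sum_product]
  have e2 : ∀ x : ℤ, (∑ y ∈ Ico (-2 ^ n : ℤ) (2 ^ n), if (x, y) ∈ A then 1 else 0) =
      ∑ j ∈ range (2 ^ (n + 1)), if (x, (j : ℤ) - 2 ^ n) ∈ A then 1 else 0 :=
    fun x => sum_shift n fun y => if (x, y) ∈ A then 1 else 0
  rw [e1, sum_shift n fun x => ∑ y ∈ Ico (-2 ^ n : ℤ) (2 ^ n), if (x, y) ∈ A then 1 else 0]
  simp only [e2]
  unfold aa
  rw [sum_comm]
  refine sum_congr rfl fun j hj => sum_congr rfl fun i hi => ?_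
  rw [mem_range] at hi hj
  unfold ff
  rw [Nat.zero_add, Nat.zero_add]
  congr 1
  exact propext ⟨fun h => ⟨hi, hj, h⟩, fun h => h.2.2⟩

private theorem exists_box (A : Set (ℤ × ℤ)) (n e : ℕ) (he : e ≤ n) (h : 4 ^ n < n ^ 3 * KK A n) :
    ∃ x y, (2 ^ e) ^ 2 < 4 * n ^ 3 * aa (ff A n) (2 ^ e) x y := by
  by_contra hne
  push Not at hne
  have h1 : KK A n = ∑ q ∈ range (2 ^ (n + 1 - e)), ∑ p ∈ range (2 ^ (n + 1 - e)),
      aa (ff A n) (2 ^ e) (0 + p * 2 ^ e) (0 + q * 2 ^ e) := by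
    rw [KK_eq, ← aa_split, ← pow_add]
    congr 2
    omega
  have h2 : 4 * n ^ 3 * KK A n ≤ 2 ^ (n + 1 - e) * (2 ^ (n + 1 - e) * (2 ^ e) ^ 2) := by
    rw [h1, mul_sum]
    calc _ ≤ ∑ q ∈ range (2 ^ (n + 1 - e)), 2 ^ (n + 1 - e) * (2 ^ e) ^ 2 := by
          refine sum_le_sum fun q _ => ?_
          rw [mul_sum]
          calc _ ≤ ∑ p ∈ range (2 ^ (n + 1 - e)), (2 ^ e) ^ 2 := sum_le_sum fun p _ => hne _ _
            _ = _ := by rw [sum_const, card_range, smul_eq_mul]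
      _ = _ := by rw [sum_const, card_range, smul_eq_mul]
  have h3 : 2 ^ (n + 1 - e) * (2 ^ (n + 1 - e) * (2 ^ e) ^ 2) = 4 * 4 ^ n := by
    have h4 : 2 ^ (n + 1 - e) * (2 ^ (n + 1 - e) * (2 ^ e) ^ 2) = (2 ^ (n + 1 - e) * 2 ^ e) ^ 2 := by ring
    rw [h4, ← pow_add, show n + 1 - e + e = n + 1 by omega, ← pow_mul, mul_comm, pow_mul]
    norm_num
    ring
  rw [h3] at h2
  have h5 : 4 * n ^ 3 * KK A n = 4 * (n ^ 3 * KK A n) := by ring
  omega

/-- the combinatorial conclusion: at a good scale there is a near square -/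
private theorem near (A : Set (ℤ × ℤ)) (n : ℕ) (h : 4 ^ n < n ^ 3 * KK A n) (s g : ℕ) (hs : 3 ≤ s)
    (he : s * (54 * (Nat.log 2 n + 2)) + g ≤ n) :
    ∃ a b u v : ℤ, (a, b) ∈ A ∧ (a + u, b) ∈ A ∧ (a, b + v) ∈ A ∧ (a + u, b + v) ∈ A ∧
      2 ^ g ≤ u ∧ 2 ^ g ≤ v ∧ v ≤ 2 ^ (n + 1) ∧ 2 ^ s * |u - v| ≤ 16 * v := by
  obtain ⟨m, hm, hms⟩ : ∃ m, 4 * m = 2 ^ s ∧ 2 ≤ m := by
    obtain ⟨r, rfl⟩ := Nat.exists_eq_add_of_le hs
    refine ⟨2 * 2 ^ r, by ring, ?_⟩
    have := Nat.one_le_two_pow (n := r)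
    omega
  set t := 54 * (Nat.log 2 n + 2) with ht
  by_contra hne
  push Not at hne
  have hno : ∀ k < t, NoSq (ff A n) m ((4 * m) ^ k * 2 ^ g) := by
    intro k _ i i' j j' h1 h2 h3 h4 h5 h6 f1 f2 f3 f4
    set H := (4 * m) ^ k * 2 ^ g with hH
    have hH1 : 2 ^ g ≤ H := Nat.le_mul_of_pos_left _ (by positivity)
    have hmH : 2 * H ≤ m * H := Nat.mul_le_mul_right H hms
    have g1 := (ff_ne f1).2.2
    have g2 := (ff_ne f2).2.2
    have g3 := (ff_ne f3).2.2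
    have g4 := (ff_ne f4).2.2
    have g5 := (ff_ne f4).2.1
    have hcast : ((2 ^ g : ℕ) : ℤ) ≤ (H : ℤ) := by exact_mod_cast hH1
    have hcast2 : ((j' : ℕ) : ℤ) < 2 ^ (n + 1) := by exact_mod_cast g5
    push_cast at hcast
    have hv : (m : ℤ) * H < (j' : ℤ) - j + H := by
      have : ((j + m * H : ℕ) : ℤ) < ((j' + H : ℕ) : ℤ) := by exact_mod_cast h4
      push_cast at this
      linarith
    have hu : (m : ℤ) * H < (i' : ℤ) - i + H := by
      have : ((i + m * H : ℕ) : ℤ) < ((i' + H : ℕ) : ℤ) := by exact_mod_cast h3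
      push_cast at this
      linarith
    have hmH' : (2 : ℤ) * H ≤ m * H := by exact_mod_cast hmH
    refine absurd (hne ((i : ℤ) - 2 ^ n) ((j : ℤ) - 2 ^ n) ((i' : ℤ) - i) ((j' : ℤ) - j) g1 ?_ ?_ ?_ ?_ ?_ ?_) ?_
    · rw [show (i : ℤ) - 2 ^ n + (i' - i) = i' - 2 ^ n by ring]
      exact g2
    · rw [show (j : ℤ) - 2 ^ n + (j' - j) = j' - 2 ^ n by ring]
      exact g3
    · rw [show (i : ℤ) - 2 ^ n + (i' - i) = i' - 2 ^ n by ring, show (j : ℤ) - 2 ^ n + (j' - j) = j' - 2 ^ n by ring]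
      exact g4
    · linarith
    · linarith
    · omega
    · rw [not_lt]
      have h7 : |(i' : ℤ) - i - (j' - j)| ≤ 2 * H := by
        rw [abs_le]
        constructor <;> omega
      have h8 : (2 : ℤ) ^ s = 4 * m := by exact_mod_cast hm.symm
      rw [h8]
      have h9 : (4 * m : ℤ) * |(i' : ℤ) - i - (j' - j)| ≤ (4 * m : ℤ) * (2 * H) :=
        mul_le_mul_of_nonneg_left h7 (by positivity)
      linarith
  obtain ⟨x, y, hxy⟩ := exists_box A n (s * t + g) he h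
  have h1 := finite_form (ff A n) (ff_le A n) m (2 ^ g) (by omega) t hno x y
  have e1 : (4 * m) ^ t * 2 ^ g = 2 ^ (s * t + g) := by rw [hm, ← pow_mul, ← pow_add]
  rw [e1] at h1
  set a := aa (ff A n) (2 ^ (s * t + g)) x y with ha
  set N := 2 ^ (s * t + g) with hN
  have h2 : (N ^ 2) ^ 3 ≤ (4 * n ^ 3 * a) ^ 3 := Nat.pow_le_pow_left hxy.le 3
  have hapos : 0 < a := by
    rcases Nat.eq_zero_or_pos a with h0 | h0
    · rw [h0] at hxy
      omega
    · exact h0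
  have h3 : n ≤ 2 ^ (Nat.log 2 n + 1) := (Nat.lt_pow_succ_log_self (by norm_num) n).le
  have h4 : 8 ^ t * a ^ 3 ≤ 7 ^ t * 2 ^ (9 * (Nat.log 2 n + 2)) * a ^ 3 := by
    calc 8 ^ t * a ^ 3 ≤ 7 ^ t * N ^ 6 := h1
      _ = 7 ^ t * (N ^ 2) ^ 3 := by ring
      _ ≤ 7 ^ t * (4 * n ^ 3 * a) ^ 3 := Nat.mul_le_mul_left _ h2
      _ = 7 ^ t * (64 * n ^ 9) * a ^ 3 := by ring
      _ ≤ 7 ^ t * (2 ^ (9 * (Nat.log 2 n + 2))) * a ^ 3 := by
        refine Nat.mul_le_mul_right _ (Nat.mul_le_mul_left _ ?_)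
        calc 64 * n ^ 9 ≤ 512 * n ^ 9 := Nat.mul_le_mul_right _ (by norm_num)
          _ = (2 * n) ^ 9 := by ring
          _ ≤ (2 ^ (Nat.log 2 n + 2)) ^ 9 := by
            refine Nat.pow_le_pow_left ?_ 9
            calc 2 * n ≤ 2 * 2 ^ (Nat.log 2 n + 1) := Nat.mul_le_mul_left _ h3
              _ = 2 ^ (Nat.log 2 n + 2) := by ring
          _ = 2 ^ (9 * (Nat.log 2 n + 2)) := by rw [← pow_mul, mul_comm]
  have h5 : 8 ^ t ≤ 7 ^ t * 2 ^ (9 * (Nat.log 2 n + 2)) := Nat.le_of_mul_le_mul_right h4 (by positivity)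
  have h6 : (7 ^ 6 * 2) ^ (9 * (Nat.log 2 n + 2)) < (8 ^ 6) ^ (9 * (Nat.log 2 n + 2)) :=
    Nat.pow_lt_pow_left (by norm_num) (by omega)
  rw [mul_pow, ← pow_mul, ← pow_mul] at h6
  have e2 : 6 * (9 * (Nat.log 2 n + 2)) = t := by rw [ht]; ring
  rw [e2] at h6
  exact absurd h5 (not_le.2 h6)

private theorem an : ∀ᶠ n : ℕ in Filter.atTop, 3 ≤ n / 2 / (54 * (Nat.log 2 n + 2)) ∧
    ∀ v : ℝ, 2 ^ (n / 2) ≤ v → v ≤ 2 ^ (n + 1) →
      16 / 2 ^ (n / 2 / (54 * (Nat.log 2 n + 2))) ≤ Real.exp (-(1 / 2520 * Real.log v / Real.log (Real.log v))) := by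
  have h1 : ∀ᶠ n : ℕ in Filter.atTop, ‖Real.log (n : ℝ)‖ ≤ 1 / 6300 * ‖(n : ℝ)‖ :=
    tendsto_natCast_atTop_atTop.eventually (Real.isLittleO_log_id_atTop.bound (by norm_num))
  filter_upwards [h1, Filter.eventually_ge_atTop 14] with n hn hn14
  have hn14' : (14 : ℝ) ≤ n := by exact_mod_cast hn14
  have hlog1 : 1 ≤ Real.log n := by
    rw [Real.le_log_iff_exp_le (by linarith)]
    linarith [Real.exp_one_lt_d9]
  rw [Real.norm_of_nonneg (by linarith), Real.norm_of_nonneg (by linarith)] at hn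
  have hl2 := Real.log_two_gt_d9
  have hl2' := Real.log_two_lt_d9
  set l := Real.log n with hl
  -- the number of steps
  have h2 : ((Nat.log 2 n : ℕ) : ℝ) * Real.log 2 ≤ l := by
    have h3 : ((2 ^ Nat.log 2 n : ℕ) : ℝ) ≤ n := by exact_mod_cast Nat.pow_log_le_self 2 (by omega)
    have h4 := Real.log_le_log (by positivity) h3
    rw [Nat.cast_pow, Real.log_pow] at h4
    exact_mod_cast h4
  have h3 : ((Nat.log 2 n : ℕ) : ℝ) + 2 ≤ 4 * l := by nlinarith [(Nat.cast_nonneg (Nat.log 2 n) : (0 : ℝ) ≤ _)]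
  set t := 54 * (Nat.log 2 n + 2) with ht
  have ht1 : (t : ℝ) ≤ 216 * l := by
    rw [ht]
    push_cast
    linarith
  have htpos : (0 : ℝ) < t := by
    rw [ht]
    positivity
  have hs : (n : ℝ) / (432 * l) - 2 ≤ ((n / 2 / t : ℕ) : ℝ) := by
    have h4 : ((n / 2 : ℕ) : ℝ) < ((n / 2 / t : ℕ) : ℝ) * t + t := by
      have : n / 2 < n / 2 / t * t + t := by
        have h9 := Nat.div_add_mod (n / 2) t
        have h10 := Nat.mod_lt (n / 2) (show 0 < t by omega)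
        rw [mul_comm] at h9
        omega
      exact_mod_cast this
    have h5 : (n : ℝ) ≤ 2 * ((n / 2 : ℕ) : ℝ) + 1 := by
      have : n ≤ 2 * (n / 2) + 1 := by omega
      exact_mod_cast this
    have h6 : (n : ℝ) / (432 * l) = (n / 2) / (216 * l) := by
      field_simp
      norm_num
    have h7 : (n : ℝ) / (432 * l) ≤ (n / 2) / t := by
      rw [h6]
      exact div_le_div_of_nonneg_left (by positivity) htpos ht1
    have h8 : (n : ℝ) / 2 / t ≤ ((n / 2 / t : ℕ) : ℝ) + 1 + 1 := by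
      rw [div_le_iff₀ htpos]
      have : (1 : ℝ) ≤ t := by
        have : 1 ≤ t := by omega
        exact_mod_cast this
      nlinarith
    linarith
  have hy : 6300 ≤ (n : ℝ) / l := by
    rw [le_div_iff₀ (by linarith)]
    linarith
  have hy2 : (n : ℝ) / (432 * l) = (n : ℝ) / l / 432 := by
    field_simp
  rw [hy2] at hs
  set y := (n : ℝ) / l with hyd
  refine ⟨?_, fun v hv1 hv2 => ?_⟩
  · have : (3 : ℝ) ≤ ((n / 2 / t : ℕ) : ℝ) := by linarith
    exact_mod_cast this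
  · set s := n / 2 / t with hsd
    have hvpos : (0 : ℝ) < v := lt_of_lt_of_le (by positivity) hv1
    have h4 : Real.log v ≤ n := by
      have := Real.log_le_log hvpos hv2
      rw [Real.log_pow] at this
      push_cast at this
      nlinarith
    have h5 : 1 / 3 * ((n : ℝ) - 1) ≤ Real.log v := by
      have h6 := Real.log_le_log (by positivity) hv1
      rw [Real.log_pow] at h6
      have h7 : (n : ℝ) ≤ 2 * ((n / 2 : ℕ) : ℝ) + 1 := by
        have : n ≤ 2 * (n / 2) + 1 := by omega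
        exact_mod_cast this
      nlinarith [(Nat.cast_nonneg (n / 2) : (0 : ℝ) ≤ _)]
    have h6 : l / 2 ≤ Real.log (Real.log v) := by
      have h7 : (n : ℝ) ≤ (Real.log v) ^ 2 := by nlinarith
      have h8 := Real.log_le_log (by linarith) h7
      rw [Real.log_pow] at h8
      push_cast at h8
      linarith
    have h7 : 1 / 2520 * Real.log v / Real.log (Real.log v) ≤ y / 1260 := by
      rw [div_le_iff₀ (by linarith)]
      have h8 : y * l = n := by
        rw [hyd]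
        field_simp
      have : y / 1260 * (l / 2) ≤ y / 1260 * Real.log (Real.log v) := mul_le_mul_of_nonneg_left h6 (by linarith)
      nlinarith
    have h8 : (16 : ℝ) / 2 ^ s ≤ Real.exp (5 - y / 630) := by
      have h9 : (16 : ℝ) ≤ Real.exp 3 := by
        have := Real.add_one_le_exp (1 : ℝ)
        have h10 : Real.exp 3 = Real.exp 1 ^ 3 := by
          rw [← Real.exp_nat_mul]
          norm_num
        rw [h10]
        have h11 := Real.exp_one_gt_d9
        have h12 : (2.7 : ℝ) ^ 3 ≤ Real.exp 1 ^ 3 := pow_le_pow_left₀ (by norm_num) (by linarith) 3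
        norm_num at h12 ⊢
        linarith
      have h10 : (2 : ℝ) ^ s = Real.exp (s * Real.log 2) := by
        rw [← Real.rpow_natCast, Real.rpow_def_of_pos (by norm_num), mul_comm]
      rw [h10, div_le_iff₀ (Real.exp_pos _), ← Real.exp_add]
      refine h9.trans (Real.exp_le_exp.2 ?_)
      nlinarith
    refine h8.trans (Real.exp_le_exp.2 ?_)
    linarith

/-- the points `z` with `r + g z ∈ A`, where `g = (p, q)` is read as a Gaussian integer -/
private def AR (A : Set (ℤ × ℤ)) (p q : ℤ) (r : ℤ × ℤ) : Set (ℤ × ℤ) :=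
  {z | (r.1 + (p * z.1 - q * z.2), r.2 + (q * z.1 + p * z.2)) ∈ A}

private theorem coset (A : Set (ℤ × ℤ)) (p q : ℤ) (hpq : (p, q) ≠ (0, 0)) :
    ∃ n₀ : ℕ, ∀ n, n₀ ≤ n → 4 ^ n < n ^ 2 * KK A n → ∃ r : ℤ × ℤ, ∃ k, n ≤ k ∧ 4 ^ k < k ^ 3 * KK (AR A p q r) k := by
  classical
  obtain ⟨D, hD⟩ : ∃ D : ℤ, D = p ^ 2 + q ^ 2 := ⟨_, rfl⟩
  have hDpos : 0 < D := by
    rcases eq_or_ne p 0 with rfl | hp
    · have hq : q ≠ 0 := fun h => hpq (by rw [h])
      rw [hD]
      positivity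
    · rw [hD]
      positivity
  obtain ⟨e, he⟩ : ∃ e : ℕ, |p| + |q| < 2 ^ e := by
    refine ⟨(|p| + |q|).toNat, ?_⟩
    have h1 : (|p| + |q|).toNat < 2 ^ (|p| + |q|).toNat := Nat.lt_two_pow_self
    have h2 : (((|p| + |q|).toNat : ℕ) : ℤ) < 2 ^ (|p| + |q|).toNat := by exact_mod_cast h1
    rwa [Int.toNat_of_nonneg (by positivity)] at h2
  refine ⟨4 ^ e * (D.toNat ^ 2), fun n hn h => ?_⟩
  by_contra hne
  push Not at hne
  -- counting
  have hcount : KK A n ≤ ∑ r ∈ Ico (0 : ℤ) D ×ˢ Ico (0 : ℤ) D, KK (AR A p q r) (n + e) := by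
    unfold KK
    rw [← card_sigma]
    refine card_le_card_of_injOn (fun z => ⟨(z.1 % D, z.2 % D), (p * (z.1 / D) + q * (z.2 / D), p * (z.2 / D) - q * (z.1 / D))⟩) ?_ ?_
    · intro z hz
      rw [mem_coe, mem_filter] at hz
      rw [mem_coe, mem_sigma]
      refine ⟨?_, ?_⟩
      · rw [mem_product, mem_Ico, mem_Ico]
        exact ⟨⟨Int.emod_nonneg _ hDpos.ne', Int.emod_lt_of_pos _ hDpos⟩, Int.emod_nonneg _ hDpos.ne', Int.emod_lt_of_pos _ hDpos⟩
      · rw [mem_filter]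
        refine ⟨?_, ?_⟩
        · have h1 := (mem_BB.1 hz.1)
          have hw : ∀ t : ℤ, -2 ^ n ≤ t → t < 2 ^ n → |t / D| ≤ 2 ^ n := by
            intro t ht1 ht2
            have h2 : (0 : ℤ) < 2 ^ n := by positivity
            rw [abs_le]
            constructor
            · rw [Int.le_ediv_iff_mul_le hDpos]
              nlinarith
            · refine Int.ediv_le_of_le_mul hDpos ?_
              nlinarith
          have hw1 := hw z.1 h1.1.1 h1.1.2
          have hw2 := hw z.2 h1.2.1 h1.2.2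
          have h3 : (2 : ℤ) ^ (n + e) = 2 ^ n * 2 ^ e := pow_add _ _ _
          have h4 : (0 : ℤ) < 2 ^ n := by positivity
          have h5 : |p| * |z.1 / D| + |q| * |z.2 / D| < 2 ^ n * 2 ^ e := by
            have e1 : |p| * |z.1 / D| ≤ |p| * 2 ^ n := mul_le_mul_of_nonneg_left hw1 (abs_nonneg _)
            have e2 : |q| * |z.2 / D| ≤ |q| * 2 ^ n := mul_le_mul_of_nonneg_left hw2 (abs_nonneg _)
            nlinarith
          have h6 : |p| * |z.2 / D| + |q| * |z.1 / D| < 2 ^ n * 2 ^ e := by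
            have e1 : |p| * |z.2 / D| ≤ |p| * 2 ^ n := mul_le_mul_of_nonneg_left hw2 (abs_nonneg _)
            have e2 : |q| * |z.1 / D| ≤ |q| * 2 ^ n := mul_le_mul_of_nonneg_left hw1 (abs_nonneg _)
            nlinarith
          have h7 : |p * (z.1 / D) + q * (z.2 / D)| < 2 ^ (n + e) := by
            rw [h3]
            refine lt_of_le_of_lt (abs_add_le _ _) ?_
            rwa [abs_mul, abs_mul]
          have h8 : |p * (z.2 / D) - q * (z.1 / D)| < 2 ^ (n + e) := by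
            rw [h3]
            refine lt_of_le_of_lt (abs_sub _ _) ?_
            rwa [abs_mul, abs_mul]
          rw [abs_lt] at h7 h8
          rw [mem_BB]
          exact ⟨⟨h7.1.le, h7.2⟩, h8.1.le, h8.2⟩
        · change (z.1 % D + (p * (p * (z.1 / D) + q * (z.2 / D)) - q * (p * (z.2 / D) - q * (z.1 / D))),
            z.2 % D + (q * (p * (z.1 / D) + q * (z.2 / D)) + p * (p * (z.2 / D) - q * (z.1 / D)))) ∈ A
          have h1 : z.1 % D + (p * (p * (z.1 / D) + q * (z.2 / D)) - q * (p * (z.2 / D) - q * (z.1 / D))) = z.1 := by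
            have := Int.emod_add_mul_ediv z.1 D
            rw [hD] at this ⊢
            linear_combination this
          have h2 : z.2 % D + (q * (p * (z.1 / D) + q * (z.2 / D)) + p * (p * (z.2 / D) - q * (z.1 / D))) = z.2 := by
            have := Int.emod_add_mul_ediv z.2 D
            rw [hD] at this ⊢
            linear_combination this
          rw [h1, h2]
          exact hz.2
    · intro z _ z' _ h
      simp only [Sigma.mk.inj_iff, heq_eq_eq, Prod.mk.injEq] at h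
      obtain ⟨⟨h1, h2⟩, h3, h4⟩ := h
      have h5 : D * (z.1 / D) = D * (z'.1 / D) := by
        rw [hD] at h3 h4 ⊢
        linear_combination p * h3 - q * h4
      have h6 : D * (z.2 / D) = D * (z'.2 / D) := by
        rw [hD] at h3 h4 ⊢
        linear_combination q * h3 + p * h4
      have e1 := Int.emod_add_mul_ediv z.1 D
      have e2 := Int.emod_add_mul_ediv z'.1 D
      have e3 := Int.emod_add_mul_ediv z.2 D
      have e4 := Int.emod_add_mul_ediv z'.2 D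
      refine Prod.ext ?_ ?_
      · linarith
      · linarith
  have h1 : ∀ r, (n + e) ^ 3 * KK (AR A p q r) (n + e) ≤ 4 ^ (n + e) := fun r => hne r (n + e) (Nat.le_add_right _ _)
  have h2 : (n + e) ^ 3 * KK A n ≤ (D.toNat ^ 2) * 4 ^ (n + e) := by
    calc (n + e) ^ 3 * KK A n ≤ (n + e) ^ 3 * ∑ r ∈ Ico (0 : ℤ) D ×ˢ Ico (0 : ℤ) D, KK (AR A p q r) (n + e) :=
          Nat.mul_le_mul_left _ hcount
      _ = ∑ r ∈ Ico (0 : ℤ) D ×ˢ Ico (0 : ℤ) D, (n + e) ^ 3 * KK (AR A p q r) (n + e) := mul_sum _ _ _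
      _ ≤ ∑ r ∈ Ico (0 : ℤ) D ×ˢ Ico (0 : ℤ) D, 4 ^ (n + e) := sum_le_sum fun r _ => h1 r
      _ = (D.toNat ^ 2) * 4 ^ (n + e) := by
        rw [sum_const, card_product, Int.card_Ico, smul_eq_mul, sub_zero, sq]
  have h3 : 1 ≤ D.toNat := by omega
  have h4 : 0 < n := lt_of_lt_of_le (by positivity) hn
  have h5 : n * (n ^ 2 * KK A n) ≤ n * 4 ^ n := by
    calc n * (n ^ 2 * KK A n) = n ^ 3 * KK A n := by ring
      _ ≤ (n + e) ^ 3 * KK A n := Nat.mul_le_mul_right _ (Nat.pow_le_pow_left (Nat.le_add_right _ _) 3)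
      _ ≤ (D.toNat ^ 2) * 4 ^ (n + e) := h2
      _ = (4 ^ e * D.toNat ^ 2) * 4 ^ n := by ring
      _ ≤ n * 4 ^ n := Nat.mul_le_mul_right _ hn
  exact absurd (Nat.le_of_mul_le_mul_left h5 h4) (not_le.2 h)

/-- **Near squares.** Every `A ⊆ ℤ²` with `S(A) = ∞` contains, in every rational direction `(p, q)` and above
every size `V`, the vertices of a rectangle with sides `u (p, q)` and `v (-q, p)` and
`|u - v| ≤ v exp (-c log v / log log v)`. -/
theorem result : ∃ c : ℝ, 0 < c ∧ ∀ A : Set (ℤ × ℤ),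
    ¬ Summable (A.indicator (fun p : ℤ × ℤ => (1 : ℝ) / ((p.1 : ℝ) ^ 2 + (p.2 : ℝ) ^ 2))) →
    ∀ p q : ℤ, (p, q) ≠ (0, 0) → ∀ V : ℝ, ∃ a b u v : ℤ, V < u ∧ V < v ∧
      (a, b) ∈ A ∧ (a + u * p, b + u * q) ∈ A ∧ (a - v * q, b + v * p) ∈ A ∧
      (a + u * p - v * q, b + u * q + v * p) ∈ A ∧
      |(u : ℝ) - v| ≤ v * Real.exp (-(c * Real.log v / Real.log (Real.log v))) := by
  refine ⟨1 / 2520, by norm_num, fun A hA p q hpq V => ?_⟩
  obtain ⟨n₀, hn₀⟩ := coset A p q hpq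
  obtain ⟨n₁, hn₁⟩ := Filter.eventually_atTop.1 an
  obtain ⟨n₂, hn₂⟩ := pow_unbounded_of_one_lt V (by norm_num : (1 : ℝ) < 2)
  have h1 : ¬ ∀ n, max n₀ (max n₁ (2 * n₂)) ≤ n → n ^ 2 * KK A n ≤ 4 ^ n := fun h => hA (summable_of_small A _ h)
  push Not at h1
  obtain ⟨n', hn', hK'⟩ := h1
  obtain ⟨r, n, hn'n, hK⟩ := hn₀ n' (le_trans (le_max_left _ _) hn') hK'
  have hn : max n₁ (2 * n₂) ≤ n := le_trans (le_trans (le_max_right _ _) hn') hn'n
  obtain ⟨hs, hv⟩ := hn₁ n (le_trans (le_max_left _ _) hn)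
  obtain ⟨a, b, u, v, m1, m2, m3, m4, hu1, hv1, hv2, huv⟩ := near (AR A p q r) n hK (n / 2 / (54 * (Nat.log 2 n + 2))) (n / 2) hs (by
    have := Nat.div_mul_le_self (n / 2) (54 * (Nat.log 2 n + 2))
    omega)
  have hv1' : (2 : ℝ) ^ (n / 2) ≤ v := by exact_mod_cast hv1
  have hu1' : (2 : ℝ) ^ (n / 2) ≤ u := by exact_mod_cast hu1
  have hv2' : (v : ℝ) ≤ 2 ^ (n + 1) := by exact_mod_cast hv2
  have hV : V < 2 ^ (n / 2) := by
    refine hn₂.trans_le (pow_le_pow_right₀ (by norm_num) ?_)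
    have := le_trans (le_max_right _ _) hn
    omega
  refine ⟨r.1 + (p * a - q * b), r.2 + (q * a + p * b), u, v, by linarith, by linarith, m1, ?_, ?_, ?_, ?_⟩
  · unfold AR at m2
    rw [Set.mem_ofPred_eq] at m2
    convert m2 using 2 <;> ring
  · unfold AR at m3
    rw [Set.mem_ofPred_eq] at m3
    convert m3 using 2 <;> ring
  · unfold AR at m4
    rw [Set.mem_ofPred_eq] at m4
    convert m4 using 2 <;> ring
  have h2 := hv v hv1' hv2'
  have huv' : (2 : ℝ) ^ (n / 2 / (54 * (Nat.log 2 n + 2))) * |(u : ℝ) - v| ≤ 16 * v := by exact_mod_cast huv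
  have hvpos : (0 : ℝ) < v := lt_of_lt_of_le (by positivity) hv1'
  calc |(u : ℝ) - v| ≤ v * (16 / 2 ^ (n / 2 / (54 * (Nat.log 2 n + 2)))) := by
        rw [mul_div_assoc', le_div_iff₀ (by positivity)]
        linarith
    _ ≤ _ := mul_le_mul_of_nonneg_left h2 hvpos.le

end Pool.Agent.Results.MP_138721_co.NearSquares
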