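import Mathlib

/-!
Squares in planar lattice sets with divergent reciprocal sum whose columns have small VC dimension.

In a box of side `N` the columns of the set are clustered by the packing lemma for set systems of VC dimension `d`
(random sample of `s` points and Sauer-Shelah): at most `(s + 1) ^ d` clusters of radius `E`. In a cluster with
centre `X` and `C` columns the set is nearly the product `X × C`, which contains at least `(|X| |C|) ^ 2 / (2 N)`
(possibly degenerate) axis-parallel squares, of which the missing points destroy at most `4 E |C| ^ 2`; so if there is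
no square, either `|X|` is small or `|X| |C| ≤ 4 N`.
-/

namespace Pool.Agent.Results.MP_138721_co.SmallVCDim

open Finset

private theorem cs_all (n : ℕ) (c : ℕ → ℕ) :
    (∑ p ∈ range n, c p) ^ 2 ≤ n * ∑ p ∈ range n, c p ^ 2 := by
  have := sq_sum_le_card_mul_sum_sq (s := range n) (f := c)
  rwa [card_range] at this

private theorem sum_choose_le (s d : ℕ) : ∑ i ∈ range (d + 1), s.choose i ≤ (s + 1) ^ d := by
  rw [add_pow]
  refine sum_le_sum fun i hi => ?_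
  rw [mem_range] at hi
  rw [one_pow, mul_one]
  calc s.choose i ≤ s ^ i := Nat.choose_le_pow s i
    _ = s ^ i * 1 := (mul_one _).symm
    _ ≤ s ^ i * d.choose i := Nat.mul_le_mul_left _ (Nat.choose_pos (by omega))

/-- **Packing.** -/
private theorem packing (N d s E : ℕ) (col : ℕ → Finset ℕ) (hcol : ∀ j, col j ⊆ range N)
    (hvc : ∀ I ⊆ range N, (∀ S ⊆ I, ∃ j ∈ range N, I ∩ col j = S) → I.card ≤ d)
    (hs : N ^ 2 * (N - (E + 1)) ^ s < N ^ s)
    (Y : Finset ℕ) (hY : Y ⊆ range N) (hfar : ∀ j ∈ Y, ∀ j' ∈ Y, j ≠ j' → E < (symmDiff (col j) (col j')).card) :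
    Y.card ≤ (s + 1) ^ d := by
  classical
  obtain ⟨φ, hφ, hgood⟩ : ∃ φ : Fin s → ℕ, (∀ t, φ t ∈ range N) ∧
      ∀ j ∈ Y, ∀ j' ∈ Y, j ≠ j' → ∃ t, φ t ∈ symmDiff (col j) (col j') := by
    by_contra hne
    push Not at hne
    have h1 : (Fintype.piFinset fun _ : Fin s => range N) ⊆
        Y.offDiag.biUnion fun p => Fintype.piFinset fun _ : Fin s => range N \ symmDiff (col p.1) (col p.2) := by
      intro φ hφ
      rw [Fintype.mem_piFinset] at hφ
      obtain ⟨j, hj, j', hj', hjj', h⟩ := hne φ hφ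
      rw [mem_biUnion]
      refine ⟨(j, j'), mem_offDiag.2 ⟨hj, hj', hjj'⟩, ?_⟩
      rw [Fintype.mem_piFinset]
      intro t
      rw [mem_sdiff]
      exact ⟨hφ t, h t⟩
    have h2 := (card_le_card h1).trans card_biUnion_le
    rw [Fintype.card_piFinset_const, card_range] at h2
    have h3 : ∀ p ∈ Y.offDiag, (Fintype.piFinset fun _ : Fin s => range N \ symmDiff (col p.1) (col p.2)).card ≤
        (N - (E + 1)) ^ s := by
      intro p hp
      rw [mem_offDiag] at hp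
      rw [Fintype.card_piFinset_const]
      refine Nat.pow_le_pow_left ?_ s
      have h4 : symmDiff (col p.1) (col p.2) ⊆ range N :=
        symmDiff_subset_union.trans (union_subset (hcol _) (hcol _))
      rw [card_sdiff_of_subset h4, card_range]
      have := hfar p.1 hp.1 p.2 hp.2.1 hp.2.2
      omega
    have h4 := h2.trans (sum_le_sum h3)
    rw [sum_const, smul_eq_mul] at h4
    have h5 : Y.offDiag.card ≤ N ^ 2 := by
      rw [offDiag_card]
      have h6 : Y.card ≤ N := by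
        have := card_le_card hY
        rwa [card_range] at this
      calc Y.card * Y.card - Y.card ≤ Y.card * Y.card := Nat.sub_le _ _
        _ ≤ N * N := Nat.mul_le_mul h6 h6
        _ = N ^ 2 := (sq N).symm
    exact absurd (h4.trans (Nat.mul_le_mul_right _ h5)) (not_le.2 hs)
  obtain ⟨S, hS⟩ : ∃ S, S = univ.image φ := ⟨_, rfl⟩
  have hSc : S.card ≤ s := by
    rw [hS]
    refine card_image_le.trans ?_
    simp
  have hSN : S ⊆ range N := by
    rw [hS]
    intro x hx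
    rw [mem_image] at hx
    obtain ⟨t, _, rfl⟩ := hx
    exact hφ t
  have hinj : Set.InjOn (fun j => col j ∩ S) (Y : Set ℕ) := by
    intro j hj j' hj' h
    by_contra hjj'
    obtain ⟨t, ht⟩ := hgood j hj j' hj' hjj'
    have hm : φ t ∈ S := by
      rw [hS]
      exact mem_image_of_mem _ (mem_univ _)
    have h2 : φ t ∈ col j ↔ φ t ∈ col j' := by
      have h3 := congrArg (fun T => φ t ∈ T) h
      simp only [mem_inter, hm, and_true, eq_iff_iff] at h3
      exact h3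
    rw [mem_symmDiff] at ht
    tauto
  have h1 : (Y.image fun j => col j ∩ S).card = Y.card := card_image_of_injOn hinj
  have h2 := card_le_card_shatterer (Y.image fun j => col j ∩ S)
  have h3 : (Y.image fun j => col j ∩ S).shatterer ⊆ (range (d + 1)).biUnion fun i => S.powersetCard i := by
    intro T hT
    rw [mem_shatterer] at hT
    have hTS : T ⊆ S := by
      obtain ⟨u, hu, hTu⟩ := hT.exists_superset
      rw [mem_image] at hu
      obtain ⟨j, _, rfl⟩ := hu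
      exact hTu.trans inter_subset_right
    rw [mem_biUnion]
    refine ⟨T.card, ?_, mem_powersetCard.2 ⟨hTS, rfl⟩⟩
    rw [mem_range, Nat.lt_succ_iff]
    refine hvc T (hTS.trans hSN) fun R hR => ?_
    obtain ⟨u, hu, hRu⟩ := hT hR
    rw [mem_image] at hu
    obtain ⟨j, hj, rfl⟩ := hu
    refine ⟨j, hY hj, ?_⟩
    rw [← hRu]
    ext x
    simp only [mem_inter]
    constructor
    · rintro ⟨a, b⟩
      exact ⟨a, b, hTS a⟩
    · rintro ⟨a, b, _⟩
      exact ⟨a, b⟩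
  calc Y.card = (Y.image fun j => col j ∩ S).card := h1.symm
    _ ≤ _ := h2
    _ ≤ _ := card_le_card h3
    _ ≤ _ := card_biUnion_le
    _ = ∑ i ∈ range (d + 1), S.card.choose i := sum_congr rfl fun i _ => card_powersetCard _ _
    _ ≤ (S.card + 1) ^ d := sum_choose_le _ _
    _ ≤ (s + 1) ^ d := Nat.pow_le_pow_left (by omega) d

/-- **Clustering.** -/
private theorem centers (N E : ℕ) (col : ℕ → Finset ℕ) :
    ∃ Y ⊆ range N, (∀ j ∈ Y, ∀ j' ∈ Y, j ≠ j' → E < (symmDiff (col j) (col j')).card) ∧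
      ∀ j ∈ range N, ∃ j' ∈ Y, (symmDiff (col j) (col j')).card ≤ E := by
  obtain ⟨Y, hY, hmax⟩ := exists_max_image ((range N).powerset.filter fun Y =>
    ∀ j ∈ Y, ∀ j' ∈ Y, j ≠ j' → E < (symmDiff (col j) (col j')).card) card ⟨∅, by simp⟩
  rw [mem_filter, mem_powerset] at hY
  refine ⟨Y, hY.1, hY.2, fun j hj => ?_⟩
  by_contra hne
  push Not at hne
  have hjY : j ∉ Y := by
    intro h
    have := hne j h
    simp at this
  have h1 := hmax (insert j Y) (by
    rw [mem_filter, mem_powerset]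
    refine ⟨insert_subset hj hY.1, ?_⟩
    intro a ha b hb hab
    rw [mem_insert] at ha hb
    rcases ha with rfl | ha <;> rcases hb with rfl | hb
    · exact absurd rfl hab
    · exact hne b hb
    · rw [symmDiff_comm]
      exact hne a ha
    · exact hY.2 a ha b hb hab)
  rw [card_insert_of_notMem hjY] at h1
  omega

/-- **A cluster.** -/
private theorem cluster (N E : ℕ) (col : ℕ → Finset ℕ)
    (hno : ∀ i i' j j', i < i' → j < j' → i + j' = i' + j → i ∈ col j → i' ∈ col j → i ∈ col j' → i' ∈ col j' → False)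
    (X C : Finset ℕ) (hX : X ⊆ range N) (hC : C ⊆ range N) (hE : ∀ j ∈ C, (X \ col j).card ≤ E) :
    (X.card * C.card) ^ 2 ≤ 2 * N * (X.card * C.card + 4 * (E * C.card * C.card)) := by
  classical
  -- pairs on the same diagonal
  obtain ⟨R, hR⟩ : ∃ R, R = ((X ×ˢ C) ×ˢ (X ×ˢ C)).filter fun z => z.1.1 + z.2.2 = z.2.1 + z.1.2 := ⟨_, rfl⟩
  have h1 : (X.card * C.card) ^ 2 ≤ 2 * N * R.card := by
    have e1 : X.card * C.card = ∑ t ∈ range (2 * N), ((X ×ˢ C).filter fun z => z.1 + N - z.2 = t).card := by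
      rw [← card_product]
      refine card_eq_sum_card_fiberwise fun z hz => ?_
      rw [mem_coe, mem_product] at hz
      have a1 := mem_range.1 (hX hz.1)
      rw [mem_coe, mem_range]
      omega
    rw [e1]
    refine (cs_all _ _).trans (Nat.mul_le_mul_left _ (le_of_eq ?_))
    have e2 : R.card = ∑ t ∈ range (2 * N), (R.filter fun z => z.1.1 + N - z.1.2 = t).card := by
      refine card_eq_sum_card_fiberwise fun z hz => ?_
      rw [mem_coe, hR, mem_filter, mem_product, mem_product, mem_product] at hz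
      have a1 := mem_range.1 (hX hz.1.1.1)
      rw [mem_coe, mem_range]
      omega
    rw [e2]
    refine sum_congr rfl fun t _ => ?_
    rw [sq, ← card_product]
    congr 1
    ext z
    rw [mem_product, mem_filter, mem_filter, mem_product, mem_product, mem_filter, hR, mem_filter, mem_product,
      mem_product, mem_product]
    constructor
    · rintro ⟨⟨⟨h1, h2⟩, h3⟩, ⟨h4, h5⟩, h6⟩
      have a1 := mem_range.1 (hC h2)
      have a2 := mem_range.1 (hC h5)
      exact ⟨⟨⟨⟨h1, h2⟩, h4, h5⟩, by omega⟩, h3⟩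
    · rintro ⟨⟨⟨⟨h1, h2⟩, h4, h5⟩, h7⟩, h3⟩
      have a1 := mem_range.1 (hC h2)
      have a2 := mem_range.1 (hC h5)
      exact ⟨⟨⟨h1, h2⟩, h3⟩, ⟨h4, h5⟩, by omega⟩
  refine h1.trans (Nat.mul_le_mul_left _ ?_)
  -- missing pairs
  obtain ⟨M, hM⟩ : ∃ M, M = (X ×ˢ C).filter fun z => z.1 ∉ col z.2 := ⟨_, rfl⟩
  have hMc : M.card ≤ E * C.card := by
    have e1 : M.card = ∑ j ∈ C, (M.filter fun z => z.2 = j).card := by
      refine card_eq_sum_card_fiberwise fun z hz => ?_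
      rw [mem_coe, hM, mem_filter, mem_product] at hz
      exact hz.1.2
    rw [e1, mul_comm, ← smul_eq_mul, ← sum_const]
    refine sum_le_sum fun j hj => ?_
    refine le_trans ?_ (hE j hj)
    refine card_le_card_of_injOn (fun z => z.1) ?_ ?_
    · intro z hz
      rw [mem_coe, mem_filter, hM, mem_filter, mem_product] at hz
      rw [mem_coe, mem_sdiff]
      refine ⟨hz.1.1.1, ?_⟩
      rw [← hz.2]
      exact hz.1.2
    · intro z hz z' hz' h
      rw [mem_coe, mem_filter] at hz hz'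
      exact Prod.ext h (hz.2.trans hz'.2.symm)
  have hsub : R ⊆ ((X ×ˢ C).image fun z => (z, z)) ∪
      (((R.filter fun z => z.1.1 ∉ col z.1.2) ∪ (R.filter fun z => z.2.1 ∉ col z.1.2)) ∪
      ((R.filter fun z => z.1.1 ∉ col z.2.2) ∪ (R.filter fun z => z.2.1 ∉ col z.2.2))) := by
    rintro ⟨⟨i, j⟩, ⟨i', j'⟩⟩ hz
    have hz' := hz
    rw [hR, mem_filter, mem_product, mem_product, mem_product] at hz'
    obtain ⟨⟨⟨h1, h2⟩, h3, h4⟩, h5⟩ := hz'
    simp only at h1 h2 h3 h4 h5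
    rw [mem_union, mem_union, mem_union, mem_union, mem_filter, mem_filter, mem_filter, mem_filter, mem_image]
    by_contra hne
    push Not at hne
    obtain ⟨n1, ⟨n2, n3⟩, n4, n5⟩ := hne
    have n2 := n2 hz
    have n3 := n3 hz
    have n4 := n4 hz
    have n5 := n5 hz
    simp only at n2 n3 n4 n5
    rcases lt_trichotomy i i' with h | h | h
    · exact hno i i' j j' h (by omega) (by omega) n2 n3 n4 n5
    · have hj : j = j' := by omega
      subst h
      subst hj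
      exact n1 (i, j) (mem_product.2 ⟨h1, h2⟩) rfl
    · exact hno i' i j' j h (by omega) (by omega) n5 n4 n3 n2
  have hinj : ∀ g : (ℕ × ℕ) × (ℕ × ℕ) → (ℕ × ℕ) × ℕ, (∀ z ∈ R, (∀ z' ∈ R, g z = g z' → z = z')) →
      ∀ R' ⊆ R, (∀ z ∈ R', g z ∈ M ×ˢ C) → R'.card ≤ E * C.card * C.card := by
    intro g hg R' hR' hP
    calc R'.card ≤ (M ×ˢ C).card := by
          refine card_le_card_of_injOn g (fun z hz => hP z hz) ?_
          intro z hz z' hz' h
          exact hg z (hR' hz) z' (hR' hz') h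
      _ = M.card * C.card := card_product _ _
      _ ≤ E * C.card * C.card := Nat.mul_le_mul_right _ hMc
  have hRm : ∀ z ∈ R, z.1.1 ∈ X ∧ z.1.2 ∈ C ∧ z.2.1 ∈ X ∧ z.2.2 ∈ C ∧ z.1.1 + z.2.2 = z.2.1 + z.1.2 := by
    intro z hz
    rw [hR, mem_filter, mem_product, mem_product, mem_product] at hz
    exact ⟨hz.1.1.1, hz.1.1.2, hz.1.2.1, hz.1.2.2, hz.2⟩
  have hMm : ∀ i j j', i ∈ X → j ∈ C → j' ∈ C → i ∉ col j → ((i, j), j') ∈ M ×ˢ C := by
    intro i j j' h1 h2 h3 h4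
    rw [mem_product, hM, mem_filter, mem_product]
    exact ⟨⟨⟨h1, h2⟩, h4⟩, h3⟩
  have b1 : (R.filter fun z => z.1.1 ∉ col z.1.2).card ≤ E * C.card * C.card := by
    refine hinj (fun z => ((z.1.1, z.1.2), z.2.2)) ?_ _ (filter_subset _ _) ?_
    · rintro ⟨⟨i, j⟩, ⟨i', j'⟩⟩ hz ⟨⟨a, b⟩, ⟨a', b'⟩⟩ hz' h
      have e1 := (hRm _ hz).2.2.2.2
      have e2 := (hRm _ hz').2.2.2.2
      simp only [Prod.mk.injEq] at h e1 e2 ⊢
      omega
    · intro z hz
      obtain ⟨hz, hz'⟩ := mem_filter.1 hz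
      obtain ⟨h1, h2, h3, h4, h5⟩ := hRm z hz
      exact hMm _ _ _ h1 h2 h4 hz'
  have b2 : (R.filter fun z => z.2.1 ∉ col z.1.2).card ≤ E * C.card * C.card := by
    refine hinj (fun z => ((z.2.1, z.1.2), z.2.2)) ?_ _ (filter_subset _ _) ?_
    · rintro ⟨⟨i, j⟩, ⟨i', j'⟩⟩ hz ⟨⟨a, b⟩, ⟨a', b'⟩⟩ hz' h
      have e1 := (hRm _ hz).2.2.2.2
      have e2 := (hRm _ hz').2.2.2.2
      simp only [Prod.mk.injEq] at h e1 e2 ⊢
      omega
    · intro z hz
      obtain ⟨hz, hz'⟩ := mem_filter.1 hz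
      obtain ⟨h1, h2, h3, h4, h5⟩ := hRm z hz
      exact hMm _ _ _ h3 h2 h4 hz'
  have b3 : (R.filter fun z => z.1.1 ∉ col z.2.2).card ≤ E * C.card * C.card := by
    refine hinj (fun z => ((z.1.1, z.2.2), z.1.2)) ?_ _ (filter_subset _ _) ?_
    · rintro ⟨⟨i, j⟩, ⟨i', j'⟩⟩ hz ⟨⟨a, b⟩, ⟨a', b'⟩⟩ hz' h
      have e1 := (hRm _ hz).2.2.2.2
      have e2 := (hRm _ hz').2.2.2.2
      simp only [Prod.mk.injEq] at h e1 e2 ⊢
      omega
    · intro z hz
      obtain ⟨hz, hz'⟩ := mem_filter.1 hz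
      obtain ⟨h1, h2, h3, h4, h5⟩ := hRm z hz
      exact hMm _ _ _ h1 h4 h2 hz'
  have b4 : (R.filter fun z => z.2.1 ∉ col z.2.2).card ≤ E * C.card * C.card := by
    refine hinj (fun z => ((z.2.1, z.2.2), z.1.2)) ?_ _ (filter_subset _ _) ?_
    · rintro ⟨⟨i, j⟩, ⟨i', j'⟩⟩ hz ⟨⟨a, b⟩, ⟨a', b'⟩⟩ hz' h
      have e1 := (hRm _ hz).2.2.2.2
      have e2 := (hRm _ hz').2.2.2.2
      simp only [Prod.mk.injEq] at h e1 e2 ⊢
      omega
    · intro z hz
      obtain ⟨hz, hz'⟩ := mem_filter.1 hz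
      obtain ⟨h1, h2, h3, h4, h5⟩ := hRm z hz
      exact hMm _ _ _ h3 h4 h2 hz'
  have b0 : ((X ×ˢ C).image fun z => (z, z)).card ≤ X.card * C.card := by
    rw [← card_product]
    exact card_image_le
  calc R.card ≤ _ := card_le_card hsub
    _ ≤ _ := card_union_le _ _
    _ ≤ X.card * C.card + 4 * (E * C.card * C.card) := by
      have u1 := card_union_le (R.filter fun z => z.1.1 ∉ col z.1.2) (R.filter fun z => z.2.1 ∉ col z.1.2)
      have u2 := card_union_le (R.filter fun z => z.1.1 ∉ col z.2.2) (R.filter fun z => z.2.1 ∉ col z.2.2)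
      have u3 := card_union_le ((R.filter fun z => z.1.1 ∉ col z.1.2) ∪ (R.filter fun z => z.2.1 ∉ col z.1.2))
        ((R.filter fun z => z.1.1 ∉ col z.2.2) ∪ (R.filter fun z => z.2.1 ∉ col z.2.2))
      omega

/-- **Finite form.** -/
private theorem finite_form (N d s E W : ℕ) (col : ℕ → Finset ℕ) (hcol : ∀ j, col j ⊆ range N)
    (hvc : ∀ I ⊆ range N, (∀ S ⊆ I, ∃ j ∈ range N, I ∩ col j = S) → I.card ≤ d)
    (hs : N ^ 2 * (N - (E + 1)) ^ s < N ^ s) (hW : E * N ≤ W ^ 2)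
    (hno : ∀ i i' j j', i < i' → j < j' → i + j' = i' + j → i ∈ col j → i' ∈ col j → i ∈ col j' → i' ∈ col j' → False) :
    ∑ j ∈ range N, (col j).card ≤ 4 * N * (s + 1) ^ d + 4 * W * N + E * N := by
  classical
  obtain ⟨Y, hY, hfar, hnear⟩ := centers N E col
  have hYc := packing N d s E col hcol hvc hs Y hY hfar
  choose! c hcY hcE using hnear
  -- the fibres
  have e1 : ∑ j ∈ range N, (col j).card ≤ ∑ j ∈ range N, ((col (c j)).card + E) := by
    refine sum_le_sum fun j hj => ?_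
    have h1 := hcE j hj
    have h2 : col j ⊆ col (c j) ∪ symmDiff (col j) (col (c j)) := by
      intro x hx
      rw [mem_union, mem_symmDiff]
      tauto
    have h3 := (card_le_card h2).trans (card_union_le _ _)
    omega
  have e2 : ∑ j ∈ range N, (col (c j)).card = ∑ y ∈ Y, (col y).card * ((range N).filter fun j => c j = y).card := by
    rw [← sum_fiberwise_of_maps_to (g := c) (t := Y) (fun j hj => hcY j hj)]
    refine sum_congr rfl fun y _ => ?_
    rw [sum_congr rfl (g := fun _ => (col y).card) (fun j hj => by rw [(mem_filter.1 hj).2]), sum_const, smul_eq_mul, mul_comm]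
  have e3 : ∀ y ∈ Y, (col y).card * ((range N).filter fun j => c j = y).card ≤
      4 * N + 4 * W * ((range N).filter fun j => c j = y).card := by
    intro y hy
    set C := (range N).filter fun j => c j = y with hC
    rcases le_or_gt (4 * W) (col y).card with h | h
    · have h1 := cluster N E col hno (col y) C (hcol y) (filter_subset _ _) (by
        intro j hj
        rw [hC, mem_filter] at hj
        have h2 := hcE j hj.1
        rw [hj.2] at h2
        refine le_trans (card_le_card ?_) h2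
        intro x hx
        rw [mem_sdiff] at hx
        rw [mem_symmDiff]
        exact Or.inr hx)
      rcases Nat.eq_zero_or_pos ((col y).card * C.card) with h0 | h0
      · omega
      · have h2 : 16 * (E * N) ≤ (col y).card ^ 2 := by
          calc 16 * (E * N) ≤ 16 * W ^ 2 := Nat.mul_le_mul_left _ hW
            _ = (4 * W) ^ 2 := by ring
            _ ≤ (col y).card ^ 2 := Nat.pow_le_pow_left h 2
        have h3 : 16 * (E * N) * (C.card * C.card) ≤ ((col y).card * C.card) ^ 2 := by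
          calc _ ≤ (col y).card ^ 2 * (C.card * C.card) := Nat.mul_le_mul_right _ h2
            _ = _ := by ring
        have h4 : ((col y).card * C.card) * ((col y).card * C.card) ≤ (4 * N) * ((col y).card * C.card) := by
          have e4 : 2 * N * ((col y).card * C.card + 4 * (E * C.card * C.card)) =
            2 * (N * ((col y).card * C.card)) + 8 * ((E * N) * (C.card * C.card)) := by ring
          have e5 : (4 * N) * ((col y).card * C.card) = 4 * (N * ((col y).card * C.card)) := by ring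
          have e6 : 16 * (E * N) * (C.card * C.card) = 16 * ((E * N) * (C.card * C.card)) := by ring
          rw [e4] at h1
          rw [e6] at h3
          rw [e5, ← sq]
          omega
        have h5 := Nat.le_of_mul_le_mul_right h4 h0
        omega
    · have : (col y).card * C.card ≤ 4 * W * C.card := Nat.mul_le_mul_right _ h.le
      omega
  have e4 : ∑ y ∈ Y, ((range N).filter fun j => c j = y).card = N := by
    rw [← card_eq_sum_card_fiberwise (fun j hj => hcY j hj), card_range]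
  have e5 : ∑ y ∈ Y, (4 * N + 4 * W * ((range N).filter fun j => c j = y).card) = Y.card * (4 * N) + 4 * W * N := by
    rw [sum_add_distrib, sum_const, smul_eq_mul, ← mul_sum, e4]
  have e6 : Y.card * (4 * N) ≤ (s + 1) ^ d * (4 * N) := Nat.mul_le_mul_right _ hYc
  have e7 := sum_le_sum e3
  rw [e5, ← e2] at e7
  rw [sum_add_distrib, sum_const, card_range, smul_eq_mul] at e1
  have e8 : (s + 1) ^ d * (4 * N) = 4 * N * (s + 1) ^ d := by ring
  have e9 : N * E = E * N := by ring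
  omega

/-- the box `[-2^n, 2^n)²` -/
private noncomputable def BB (n : ℕ) : Finset (ℤ × ℤ) := Ico (-2 ^ n : ℤ) (2 ^ n) ×ˢ Ico (-2 ^ n : ℤ) (2 ^ n)

open Classical in
/-- number of points of `A` in the box -/
private noncomputable def KK (A : Set (ℤ × ℤ)) (n : ℕ) : ℕ := ((BB n).filter fun p => p ∈ A).card

private theorem mem_BB {n : ℕ} {p : ℤ × ℤ} : p ∈ BB n ↔ (-2 ^ n ≤ p.1 ∧ p.1 < 2 ^ n) ∧ (-2 ^ n ≤ p.2 ∧ p.2 < 2 ^ n) := by
  unfold BB
  rw [mem_product, mem_Ico, mem_Ico]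

private theorem BB_mono {n k : ℕ} (h : n ≤ k) : BB n ⊆ BB k := by
  intro p hp
  rw [mem_BB] at hp ⊢
  have h1 : (2 : ℤ) ^ n ≤ 2 ^ k := pow_le_pow_right₀ (by norm_num) h
  omega

private noncomputable def gg (A : Set (ℤ × ℤ)) : ℤ × ℤ → ℝ :=
  A.indicator fun p : ℤ × ℤ => (1 : ℝ) / ((p.1 : ℝ) ^ 2 + (p.2 : ℝ) ^ 2)

private theorem gg_nonneg (A : Set (ℤ × ℤ)) (p : ℤ × ℤ) : 0 ≤ gg A p := by
  unfold gg
  refine Set.indicator_nonneg (fun p _ => ?_) p
  positivity

private theorem shell (A : Set (ℤ × ℤ)) (n : ℕ) :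
    ∑ p ∈ BB (n + 1) \ BB n, gg A p ≤ KK A (n + 1) / 4 ^ n := by
  classical
  have h1 : ∀ p ∈ BB (n + 1) \ BB n, gg A p ≤ if p ∈ A then (1 : ℝ) / 4 ^ n else 0 := by
    intro p hp
    unfold gg
    rw [Set.indicator_apply]
    split_ifs with hA
    · rw [mem_sdiff, mem_BB, mem_BB] at hp
      have h2 : (4 : ℤ) ^ n ≤ p.1 ^ 2 + p.2 ^ 2 := by
        have h3 : (4 : ℤ) ^ n = (2 ^ n) ^ 2 := by
          rw [← pow_mul, mul_comm, pow_mul]
          norm_num
        have h4 : (0 : ℤ) < 2 ^ n := by positivity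
        obtain ⟨hp1, hp2⟩ := hp
        have h5 : p.1 < -2 ^ n ∨ 2 ^ n ≤ p.1 ∨ p.2 < -2 ^ n ∨ 2 ^ n ≤ p.2 := by omega
        rw [h3]
        rcases h5 with h | h | h | h <;> nlinarith [sq_nonneg p.1, sq_nonneg p.2]
      have h3 : ((4 : ℝ) ^ n) ≤ (p.1 : ℝ) ^ 2 + (p.2 : ℝ) ^ 2 := by exact_mod_cast h2
      exact one_div_le_one_div_of_le (by positivity) h3
    · exact le_rfl
  calc ∑ p ∈ BB (n + 1) \ BB n, gg A p ≤ ∑ p ∈ BB (n + 1) \ BB n, (if p ∈ A then (1 : ℝ) / 4 ^ n else 0) :=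
        sum_le_sum h1
    _ ≤ ∑ p ∈ BB (n + 1), (if p ∈ A then (1 : ℝ) / 4 ^ n else 0) := by
        refine sum_le_sum_of_subset_of_nonneg sdiff_subset fun p _ _ => ?_
        split_ifs
        · positivity
        · exact le_rfl
    _ = KK A (n + 1) / 4 ^ n := by
        rw [← sum_filter, sum_const, nsmul_eq_mul]
        unfold KK
        rw [mul_one_div]

private theorem summable_of_small (A : Set (ℤ × ℤ)) (n₀ : ℕ) (h : ∀ n, n₀ ≤ n → n ^ 2 * KK A n ≤ 4 ^ n) :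
    Summable (gg A) := by
  classical
  have hs : Summable fun n : ℕ => 4 * (1 / ((n + 1 : ℕ) : ℝ) ^ 2) := by
    refine Summable.mul_left 4 ?_
    have := (Real.summable_one_div_nat_pow (p := 2)).2 (by norm_num)
    exact (summable_nat_add_iff (f := fun n : ℕ => 1 / (n : ℝ) ^ 2) 1).2 this
  have h1 : ∀ M, ∑ p ∈ BB (n₀ + M), gg A p ≤ ∑ p ∈ BB n₀, gg A p + ∑ n ∈ range (n₀ + M), 4 * (1 / ((n + 1 : ℕ) : ℝ) ^ 2) := by
    intro M
    induction M with
    | zero =>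
      have : 0 ≤ ∑ n ∈ range (n₀ + 0), 4 * (1 / ((n + 1 : ℕ) : ℝ) ^ 2) := sum_nonneg fun n _ => by positivity
      simpa using this
    | succ M ih =>
      rw [← add_assoc, sum_range_succ]
      have h2 : ∑ p ∈ BB (n₀ + M + 1), gg A p = ∑ p ∈ BB (n₀ + M + 1) \ BB (n₀ + M), gg A p + ∑ p ∈ BB (n₀ + M), gg A p :=
        (sum_sdiff (BB_mono (Nat.le_succ _))).symm
      have h3 := shell A (n₀ + M)
      have h4 : (KK A (n₀ + M + 1) : ℝ) / 4 ^ (n₀ + M) ≤ 4 * (1 / ((n₀ + M + 1 : ℕ) : ℝ) ^ 2) := by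
        have h5 := h (n₀ + M + 1) (by omega)
        have h6 : ((n₀ + M + 1 : ℕ) : ℝ) ^ 2 * (KK A (n₀ + M + 1) : ℝ) ≤ 4 ^ (n₀ + M + 1) := by exact_mod_cast h5
        rw [mul_one_div, div_le_div_iff₀ (by positivity) (by positivity)]
        rw [pow_succ (4 : ℝ)] at h6
        linarith
      linarith
  refine summable_of_sum_le (c := ∑ p ∈ BB n₀, gg A p + ∑' n : ℕ, 4 * (1 / ((n + 1 : ℕ) : ℝ) ^ 2)) (gg_nonneg A) fun u => ?_
  obtain ⟨M, hM⟩ : ∃ M, u ⊆ BB (n₀ + M) := by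
    refine ⟨∑ p ∈ u, (p.1.natAbs + p.2.natAbs), fun p hp => ?_⟩
    have h2 : p.1.natAbs + p.2.natAbs ≤ ∑ p ∈ u, (p.1.natAbs + p.2.natAbs) :=
      single_le_sum (f := fun p : ℤ × ℤ => p.1.natAbs + p.2.natAbs) (fun _ _ => Nat.zero_le _) hp
    have h3 : n₀ + ∑ p ∈ u, (p.1.natAbs + p.2.natAbs) < 2 ^ (n₀ + ∑ p ∈ u, (p.1.natAbs + p.2.natAbs)) :=
      Nat.lt_two_pow_self
    have h4 : ((n₀ + ∑ p ∈ u, (p.1.natAbs + p.2.natAbs) : ℕ) : ℤ) < 2 ^ (n₀ + ∑ p ∈ u, (p.1.natAbs + p.2.natAbs)) := by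
      exact_mod_cast h3
    rw [mem_BB]
    omega
  calc ∑ p ∈ u, gg A p ≤ ∑ p ∈ BB (n₀ + M), gg A p :=
        sum_le_sum_of_subset_of_nonneg hM fun p _ _ => gg_nonneg A p
    _ ≤ ∑ p ∈ BB n₀, gg A p + ∑ n ∈ range (n₀ + M), 4 * (1 / ((n + 1 : ℕ) : ℝ) ^ 2) := h1 M
    _ ≤ _ := by
      have := hs.sum_le_tsum (range (n₀ + M)) (fun n _ => by positivity)
      linarith

private theorem sum_shift (n : ℕ) (g : ℤ → ℕ) :
    ∑ x ∈ Ico (-2 ^ n : ℤ) (2 ^ n), g x = ∑ i ∈ range (2 ^ (n + 1)), g ((i : ℤ) - 2 ^ n) := by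
  refine (sum_bij' (fun (i : ℕ) _ => (i : ℤ) - 2 ^ n) (fun (x : ℤ) _ => (x + 2 ^ n).toNat) ?_ ?_ ?_ ?_ ?_).symm
  · intro i hi
    rw [mem_range] at hi
    have h2 : ((i : ℕ) : ℤ) < 2 ^ (n + 1) := by exact_mod_cast hi
    rw [mem_Ico]
    rw [pow_succ] at h2
    omega
  · intro x hx
    rw [mem_Ico] at hx
    rw [mem_range]
    have h2 : (2 : ℤ) ^ (n + 1) = 2 ^ n * 2 := pow_succ _ _
    have h3 : ((x + 2 ^ n).toNat : ℤ) < ((2 ^ (n + 1) : ℕ) : ℤ) := by
      push_cast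
      omega
    exact_mod_cast h3
  · intro i _
    simp
  · intro x hx
    rw [mem_Ico] at hx
    rw [Int.toNat_of_nonneg (by omega)]
    ring
  · intro i _
    rfl

open Classical in
/-- the columns of `A` in the box, in coordinates starting at 0 -/
private noncomputable def colA (A : Set (ℤ × ℤ)) (k : ℕ) (j : ℕ) : Finset ℕ :=
  (range (2 ^ (k + 1))).filter fun i => ((i : ℤ) - 2 ^ k, (j : ℤ) - 2 ^ k) ∈ A

private theorem mem_colA {A : Set (ℤ × ℤ)} {k i j : ℕ} :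
    i ∈ colA A k j ↔ i < 2 ^ (k + 1) ∧ ((i : ℤ) - 2 ^ k, (j : ℤ) - 2 ^ k) ∈ A := by
  simp only [colA, mem_filter, mem_range]

private theorem KK_col (A : Set (ℤ × ℤ)) (k : ℕ) : KK A k = ∑ j ∈ range (2 ^ (k + 1)), (colA A k j).card := by
  classical
  have e1 : KK A k = ∑ x ∈ Ico (-2 ^ k : ℤ) (2 ^ k), ∑ y ∈ Ico (-2 ^ k : ℤ) (2 ^ k), if (x, y) ∈ A then 1 else 0 := by
    unfold KK BB
    rw [card_filter, sum_product]
  have e2 : ∀ x : ℤ, (∑ y ∈ Ico (-2 ^ k : ℤ) (2 ^ k), if (x, y) ∈ A then 1 else 0) =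
      ∑ j ∈ range (2 ^ (k + 1)), if (x, (j : ℤ) - 2 ^ k) ∈ A then 1 else 0 :=
    fun x => sum_shift k fun y => if (x, y) ∈ A then 1 else 0
  rw [e1, sum_shift k fun x => ∑ y ∈ Ico (-2 ^ k : ℤ) (2 ^ k), if (x, y) ∈ A then 1 else 0]
  simp only [e2]
  rw [sum_comm]
  refine sum_congr rfl fun j _ => ?_
  unfold colA
  rw [card_filter]

/-- the family of the columns of `A` in `[-N, N]²` -/
private noncomputable def famA (A : Set (ℤ × ℤ)) (N : ℕ) : Finset (Finset ℤ) := by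
  classical
  exact (Icc (-N : ℤ) N).image fun j => (Icc (-N : ℤ) N).filter fun i => (i, j) ∈ A

private theorem vc_col (A : Set (ℤ × ℤ)) (k : ℕ) (I : Finset ℕ) (hI : I ⊆ range (2 ^ (k + 1)))
    (h : ∀ S ⊆ I, ∃ j ∈ range (2 ^ (k + 1)), I ∩ colA A k j = S) :
    I.card ≤ (famA A (2 ^ k)).vcDim := by
  classical
  have h2k : (2 : ℤ) ^ (k + 1) = 2 ^ k * 2 := pow_succ _ _
  have hrange : ∀ j ∈ range (2 ^ (k + 1)), ((j : ℤ) - 2 ^ k) ∈ Icc (-((2 ^ k : ℕ) : ℤ)) ((2 ^ k : ℕ) : ℤ) := by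
    intro j hj
    rw [mem_range] at hj
    have h3 : ((j : ℕ) : ℤ) < 2 ^ (k + 1) := by exact_mod_cast hj
    rw [mem_Icc]
    push_cast
    omega
  have hinj : Function.Injective fun i : ℕ => (i : ℤ) - 2 ^ k := by
    intro i i' h
    simpa using h
  have h1 : (famA A (2 ^ k)).Shatters (I.image fun i : ℕ => (i : ℤ) - 2 ^ k) := by
    intro t ht
    obtain ⟨j, hj, hjS⟩ := h (I.filter fun i => ((i : ℤ) - 2 ^ k) ∈ t) (filter_subset _ _)
    refine ⟨(Icc (-((2 ^ k : ℕ) : ℤ)) ((2 ^ k : ℕ) : ℤ)).filter fun i => (i, (j : ℤ) - 2 ^ k) ∈ A, ?_, ?_⟩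
    · unfold famA
      exact mem_image_of_mem _ (hrange j hj)
    · ext x
      rw [mem_inter, mem_image, mem_filter]
      constructor
      · rintro ⟨⟨i, hi, rfl⟩, _, hx⟩
        have h3 : i ∈ I ∩ colA A k j := by
          rw [mem_inter, mem_colA]
          exact ⟨hi, mem_range.1 (hI hi), hx⟩
        rw [hjS, mem_filter] at h3
        exact h3.2
      · intro hx
        obtain ⟨i, hi, rfl⟩ := mem_image.1 (ht hx)
        refine ⟨⟨i, hi, rfl⟩, hrange i (hI hi), ?_⟩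
        have h3 : i ∈ I.filter (fun i : ℕ => ((i : ℤ) - 2 ^ k) ∈ t) := by
          rw [mem_filter]
          exact ⟨hi, hx⟩
        rw [← hjS, mem_inter, mem_colA] at h3
        exact h3.2.2
  have h2 := h1.card_le_vcDim
  rwa [card_image_of_injective _ hinj] at h2

private theorem sample (k r : ℕ) (hr : 1 ≤ r) (E : ℕ) (hE : E * r = 2 ^ (k + 1)) :
    (2 ^ (k + 1)) ^ 2 * (2 ^ (k + 1) - (E + 1)) ^ (2 * (k + 1) * r) < (2 ^ (k + 1)) ^ (2 * (k + 1) * r) := by
  have hr' : (1 : ℝ) ≤ r := by exact_mod_cast hr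
  have hN : (0 : ℝ) < 2 ^ (k + 1) := by positivity
  have hE' : (E : ℝ) * r = 2 ^ (k + 1) := by exact_mod_cast hE
  have h1 : ((2 ^ (k + 1) - (E + 1) : ℕ) : ℝ) ≤ 2 ^ (k + 1) * (1 - 1 / r) := by
    have h2 : (2 : ℝ) ^ (k + 1) * (1 - 1 / r) = 2 ^ (k + 1) - E := by
      rw [mul_sub, mul_one, mul_one_div, ← hE']
      field_simp
    rw [h2]
    rcases le_total (E + 1) (2 ^ (k + 1)) with h | h
    · rw [Nat.cast_sub h]
      push_cast
      linarith
    · rw [Nat.sub_eq_zero_of_le h, Nat.cast_zero]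
      have h3 : E ≤ 2 ^ (k + 1) := by
        rw [← hE]
        exact Nat.le_mul_of_pos_right _ (by omega)
      have h4 : (E : ℝ) ≤ 2 ^ (k + 1) := by exact_mod_cast h3
      linarith
  have h2 : (1 - 1 / (r : ℝ)) ^ r ≤ Real.exp (-1) := Real.one_sub_div_pow_le_exp_neg (by exact_mod_cast hr)
  have h3 : Real.exp (-1) < 1 / 2 := by
    rw [Real.exp_neg, one_div]
    refine inv_strictAnti₀ (by norm_num) ?_
    linarith [Real.exp_one_gt_d9]
  have h0 : (0 : ℝ) ≤ 1 - 1 / r := by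
    rw [sub_nonneg, div_le_one (by linarith)]
    exact hr'
  have h4 : (1 - 1 / (r : ℝ)) ^ (2 * (k + 1) * r) < (1 / 2) ^ (2 * (k + 1)) := by
    rw [mul_comm, pow_mul]
    refine lt_of_le_of_lt (pow_le_pow_left₀ (pow_nonneg h0 _) h2 _) ?_
    exact pow_lt_pow_left₀ h3 (Real.exp_pos _).le (by omega)
  have h5 : ((2 : ℝ) ^ (k + 1)) ^ 2 * (((2 ^ (k + 1) - (E + 1) : ℕ) : ℝ)) ^ (2 * (k + 1) * r) <
      ((2 : ℝ) ^ (k + 1)) ^ (2 * (k + 1) * r) := by
    calc ((2 : ℝ) ^ (k + 1)) ^ 2 * (((2 ^ (k + 1) - (E + 1) : ℕ) : ℝ)) ^ (2 * (k + 1) * r)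
        ≤ ((2 : ℝ) ^ (k + 1)) ^ 2 * (2 ^ (k + 1) * (1 - 1 / r)) ^ (2 * (k + 1) * r) :=
          mul_le_mul_of_nonneg_left (pow_le_pow_left₀ (Nat.cast_nonneg _) h1 _) (by positivity)
      _ = ((2 : ℝ) ^ (k + 1)) ^ (2 * (k + 1) * r) * (((2 : ℝ) ^ (k + 1)) ^ 2 * (1 - 1 / r) ^ (2 * (k + 1) * r)) := by
          rw [mul_pow]
          ring
      _ < ((2 : ℝ) ^ (k + 1)) ^ (2 * (k + 1) * r) * (((2 : ℝ) ^ (k + 1)) ^ 2 * (1 / 2) ^ (2 * (k + 1))) := by
          refine mul_lt_mul_of_pos_left (mul_lt_mul_of_pos_left h4 (by positivity)) (by positivity)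
      _ = ((2 : ℝ) ^ (k + 1)) ^ (2 * (k + 1) * r) := by
          have h6 : ((2 : ℝ) ^ (k + 1)) ^ 2 * (1 / 2) ^ (2 * (k + 1)) = 1 := by
            rw [← pow_mul, mul_comm (k + 1) 2, ← mul_pow]
            norm_num
          rw [h6, mul_one]
  exact_mod_cast h5

/-- the analytic estimate -/
private theorem an : ∀ᶠ k : ℕ in Filter.atTop, ∀ d : ℕ,
    (d : ℝ) ≤ Real.log ((2 ^ k : ℕ) : ℝ) / (6 * Real.log (Real.log ((2 ^ k : ℕ) : ℝ))) →
    (14 + 5 * (Nat.log 2 k + 1)) * d + 2 * (Nat.log 2 k + 1) + 4 ≤ k ∧ 4 * (Nat.log 2 k + 1) + 11 ≤ k := by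
  have h1 : ∀ᶠ k : ℕ in Filter.atTop, ‖Real.log (k : ℝ)‖ ≤ 1 / 100 * ‖(k : ℝ)‖ :=
    tendsto_natCast_atTop_atTop.eventually (Real.isLittleO_log_id_atTop.bound (by norm_num))
  have h2 : ∀ᶠ k : ℕ in Filter.atTop, 27 ≤ Real.log (k : ℝ) :=
    (Real.tendsto_log_atTop.comp tendsto_natCast_atTop_atTop).eventually_ge_atTop 27
  filter_upwards [h1, h2, Filter.eventually_ge_atTop 1] with k hk hk2 hk1 d hd
  have hk1' : (1 : ℝ) ≤ k := by exact_mod_cast hk1
  rw [Real.norm_of_nonneg (by linarith), Real.norm_of_nonneg (by linarith)] at hk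
  have hl2 := Real.log_two_gt_d9
  have hl2' := Real.log_two_lt_d9
  set l := Real.log k with hl
  have h3 : ((Nat.log 2 k : ℕ) : ℝ) * Real.log 2 ≤ l := by
    have h3 : ((2 ^ Nat.log 2 k : ℕ) : ℝ) ≤ k := by exact_mod_cast Nat.pow_log_le_self 2 (by omega)
    have h4 := Real.log_le_log (by positivity) h3
    rw [Nat.cast_pow, Real.log_pow] at h4
    exact_mod_cast h4
  have hN0 : (0 : ℝ) ≤ (Nat.log 2 k : ℕ) := Nat.cast_nonneg _
  have h4 : Real.log ((2 ^ k : ℕ) : ℝ) = k * Real.log 2 := by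
    rw [Nat.cast_pow, Real.log_pow]
    norm_num
  have h5 : l - 1 / 2 ≤ Real.log (k * Real.log 2) := by
    rw [Real.log_mul (by linarith) (by linarith)]
    have h6 : -(1 / 2) ≤ Real.log (Real.log 2) := by
      rw [Real.le_log_iff_exp_le (by linarith), Real.exp_neg]
      have h7 : (3 / 2 : ℝ) ≤ Real.exp (1 / 2) := by
        have := Real.add_one_le_exp (1 / 2 : ℝ)
        linarith
      have h8 : (Real.exp (1 / 2))⁻¹ ≤ (3 / 2 : ℝ)⁻¹ := inv_anti₀ (by norm_num) h7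
      norm_num at h8 ⊢
      linarith
    linarith
  rw [h4, le_div_iff₀ (by linarith)] at hd
  have hd0 : (0 : ℝ) ≤ d := Nat.cast_nonneg d
  have h6 : (d : ℝ) * (6 * l - 3) ≤ k * Real.log 2 := by
    refine le_trans (mul_le_mul_of_nonneg_left ?_ hd0) hd
    linarith
  have h7 : (14 + 5 * ((Nat.log 2 k : ℕ) + 1) : ℝ) * Real.log 2 ≤ 5 * l + 13.2 := by nlinarith
  have h8 : (14 + 5 * ((Nat.log 2 k : ℕ) + 1) : ℝ) * d ≤ 0.95 * k := by
    have h9 : ((14 + 5 * ((Nat.log 2 k : ℕ) + 1) : ℝ) * d) * ((6 * l - 3) * Real.log 2) ≤ (0.95 * k) * ((6 * l - 3) * Real.log 2) := by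
      calc ((14 + 5 * ((Nat.log 2 k : ℕ) + 1) : ℝ) * d) * ((6 * l - 3) * Real.log 2)
          = ((14 + 5 * ((Nat.log 2 k : ℕ) + 1) : ℝ) * Real.log 2) * (d * (6 * l - 3)) := by ring
        _ ≤ (5 * l + 13.2) * (k * Real.log 2) := mul_le_mul h7 h6 (by
            refine mul_nonneg hd0 ?_
            linarith) (by linarith)
        _ ≤ (0.95 * (6 * l - 3)) * (k * Real.log 2) := by
            refine mul_le_mul_of_nonneg_right ?_ ?_
            · linarith
            · refine mul_nonneg (by linarith) (by linarith)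
        _ = _ := by ring
    refine le_of_mul_le_mul_right h9 ?_
    refine mul_pos (by linarith) (by linarith)
  constructor
  · have : ((14 + 5 * (Nat.log 2 k + 1)) * d + 2 * (Nat.log 2 k + 1) + 4 : ℝ) ≤ k := by nlinarith
    exact_mod_cast this
  · have : (4 * (Nat.log 2 k + 1) + 11 : ℝ) ≤ k := by nlinarith
    exact_mod_cast this

private theorem numeric (k d l s E W K : ℕ) (hkl : k + 1 ≤ 2 ^ l) (h1 : (14 + 5 * l) * d + 2 * l + 4 ≤ k)
    (h2 : 4 * l + 11 ≤ k) (hs : s = 2 * (k + 1) * 2 ^ (12 + 4 * l)) (hE : E = 2 ^ (k - 11 - 4 * l))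
    (hW : W = 2 ^ (k - 5 - 2 * l))
    (hK : K ≤ 4 * 2 ^ (k + 1) * (s + 1) ^ d + 4 * W * 2 ^ (k + 1) + E * 2 ^ (k + 1)) : k ^ 2 * K ≤ 4 ^ k := by
  have hk2 : k ^ 2 ≤ 2 ^ (2 * l) := by
    rw [mul_comm, pow_mul]
    exact Nat.pow_le_pow_left (by omega) 2
  have hs1 : s + 1 ≤ 2 ^ (14 + 5 * l) := by
    have e1 : s ≤ 2 ^ (13 + 5 * l) := by
      rw [hs]
      calc 2 * (k + 1) * 2 ^ (12 + 4 * l) ≤ 2 * 2 ^ l * 2 ^ (12 + 4 * l) :=
            Nat.mul_le_mul_right _ (Nat.mul_le_mul_left _ hkl)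
        _ = 2 ^ (13 + 5 * l) := by ring
    have e2 : 2 ^ (14 + 5 * l) = 2 * 2 ^ (13 + 5 * l) := by ring
    have e3 : 1 ≤ 2 ^ (13 + 5 * l) := Nat.one_le_two_pow
    omega
  have hs2 : (s + 1) ^ d ≤ 2 ^ ((14 + 5 * l) * d) := by
    rw [pow_mul]
    exact Nat.pow_le_pow_left hs1 d
  have a1 : k ^ 2 * (4 * (s + 1) ^ d) ≤ 2 ^ (k - 2) := by
    calc k ^ 2 * (4 * (s + 1) ^ d) ≤ 2 ^ (2 * l) * (4 * 2 ^ ((14 + 5 * l) * d)) :=
          Nat.mul_le_mul hk2 (Nat.mul_le_mul_left _ hs2)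
      _ = 2 ^ ((14 + 5 * l) * d + 2 * l + 2) := by ring
      _ ≤ 2 ^ (k - 2) := Nat.pow_le_pow_right (by norm_num) (by omega)
  have a2 : k ^ 2 * (4 * W) ≤ 2 ^ (k - 3) := by
    calc k ^ 2 * (4 * W) ≤ 2 ^ (2 * l) * (4 * W) := Nat.mul_le_mul_right _ hk2
      _ = 2 ^ (2 * l + 2 + (k - 5 - 2 * l)) := by
        rw [hW]
        ring
      _ ≤ 2 ^ (k - 3) := Nat.pow_le_pow_right (by norm_num) (by omega)
  have a3 : k ^ 2 * E ≤ 2 ^ (k - 3) := by
    calc k ^ 2 * E ≤ 2 ^ (2 * l) * E := Nat.mul_le_mul_right _ hk2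
      _ = 2 ^ (2 * l + (k - 11 - 4 * l)) := by
        rw [hE]
        ring
      _ ≤ 2 ^ (k - 3) := Nat.pow_le_pow_right (by norm_num) (by omega)
  have b1 : 2 ^ (k - 2) = 2 * 2 ^ (k - 3) := by
    rw [← pow_succ']
    congr 1
    omega
  have b2 : (4 : ℕ) ^ k = 2 ^ (k + 1) * (4 * 2 ^ (k - 3)) := by
    rw [show (4 : ℕ) = 2 ^ 2 by norm_num, ← pow_mul, ← pow_add, ← pow_add]
    congr 1
    omega
  calc k ^ 2 * K ≤ k ^ 2 * (4 * 2 ^ (k + 1) * (s + 1) ^ d + 4 * W * 2 ^ (k + 1) + E * 2 ^ (k + 1)) :=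
        Nat.mul_le_mul_left _ hK
    _ = 2 ^ (k + 1) * (k ^ 2 * (4 * (s + 1) ^ d) + k ^ 2 * (4 * W) + k ^ 2 * E) := by ring
    _ ≤ 2 ^ (k + 1) * (4 * 2 ^ (k - 3)) := Nat.mul_le_mul_left _ (by omega)
    _ = 4 ^ k := b2.symm

open Classical in
/-- **Squares in sets whose columns have small VC dimension.** If `S(A) = ∞` and for all large `N` the family of
the columns of `A` in `[-N, N]²` has VC dimension at most `log N / (6 log log N)`, then `A` contains a square. -/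
theorem result (A : Set (ℤ × ℤ))
    (hS : ¬ Summable (A.indicator (fun p : ℤ × ℤ => (1 : ℝ) / ((p.1 : ℝ) ^ 2 + (p.2 : ℝ) ^ 2))))
    (hvc : ∃ N₀ : ℕ, ∀ N : ℕ, N₀ ≤ N →
      (((Finset.Icc (-N : ℤ) N).image fun j => (Finset.Icc (-N : ℤ) N).filter fun i => (i, j) ∈ A).vcDim : ℝ) ≤
        Real.log N / (6 * Real.log (Real.log N))) :
    ∃ a b d : ℤ, 0 < d ∧ (a, b) ∈ A ∧ (a + d, b) ∈ A ∧ (a, b + d) ∈ A ∧ (a + d, b + d) ∈ A := by
  by_contra hno
  push Not at hno
  obtain ⟨N₀, hN₀⟩ := hvc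
  obtain ⟨k₁, hk₁⟩ := Filter.eventually_atTop.1 an
  have h1 : ¬ ∀ n, max k₁ N₀ ≤ n → n ^ 2 * KK A n ≤ 4 ^ n := fun h => hS (summable_of_small A _ h)
  push Not at h1
  obtain ⟨k, hk, hK⟩ := h1
  have hd : (((famA A (2 ^ k)).vcDim : ℕ) : ℝ) ≤ Real.log ((2 ^ k : ℕ) : ℝ) / (6 * Real.log (Real.log ((2 ^ k : ℕ) : ℝ))) :=
    hN₀ (2 ^ k) ((le_trans (le_max_right _ _) hk).trans Nat.lt_two_pow_self.le)
  obtain ⟨hb1, hb2⟩ := hk₁ k (le_trans (le_max_left _ _) hk) _ hd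
  obtain ⟨l, hl⟩ : ∃ l, l = Nat.log 2 k + 1 := ⟨_, rfl⟩
  rw [← hl] at hb1 hb2
  have hkl : k + 1 ≤ 2 ^ l := by
    rw [hl]
    exact Nat.lt_pow_succ_log_self (by norm_num) k
  have hEr : 2 ^ (k - 11 - 4 * l) * 2 ^ (12 + 4 * l) = 2 ^ (k + 1) := by
    rw [← pow_add]
    congr 1
    omega
  have hW : 2 ^ (k - 11 - 4 * l) * 2 ^ (k + 1) ≤ (2 ^ (k - 5 - 2 * l)) ^ 2 := by
    rw [← pow_add, ← pow_mul]
    exact Nat.pow_le_pow_right (by norm_num) (by omega)
  have hfin := finite_form (2 ^ (k + 1)) (famA A (2 ^ k)).vcDim (2 * (k + 1) * 2 ^ (12 + 4 * l)) (2 ^ (k - 11 - 4 * l))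
    (2 ^ (k - 5 - 2 * l)) (colA A k) (fun j => by
      intro i hi
      rw [mem_range]
      exact (mem_colA.1 hi).1) (vc_col A k) (sample k _ Nat.one_le_two_pow _ hEr) hW (by
      intro i i' j j' hi hj hij m1 m2 m3 m4
      refine hno ((i : ℤ) - 2 ^ k) ((j : ℤ) - 2 ^ k) ((i' : ℤ) - i) (by omega) (mem_colA.1 m1).2 ?_ ?_ ?_
      · rw [show (i : ℤ) - 2 ^ k + (i' - i) = i' - 2 ^ k by ring]
        exact (mem_colA.1 m2).2
      · rw [show (j : ℤ) - 2 ^ k + (i' - i) = j' - 2 ^ k by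
          have : (i : ℤ) + j' = i' + j := by exact_mod_cast hij
          linarith]
        exact (mem_colA.1 m3).2
      · rw [show (i : ℤ) - 2 ^ k + (i' - i) = i' - 2 ^ k by ring, show (j : ℤ) - 2 ^ k + (i' - i) = j' - 2 ^ k by
          have : (i : ℤ) + j' = i' + j := by exact_mod_cast hij
          linarith]
        exact (mem_colA.1 m4).2)
  rw [← KK_col] at hfin
  exact absurd (numeric k _ l _ _ _ _ hkl hb1 hb2 rfl rfl rfl hfin) (not_le.2 hK)

end Pool.Agent.Results.MP_138721_co.SmallVCDim
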